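import Pool.Agent.SCV.Two

/-!
# SCV/Le4 : second Betti number at most four
-/

set_option autoImplicit false

open Module Filter Topology

namespace Pool.Agent.SCV

open Pool.Agent.SYM.V3.Lat Pool.Agent.H93Cone Pool.Agent.SymCone Pool.Agent.H92Cone Pool.Agent.H55.Cone

namespace Cls

variable {b : ℕ} {C : Cls b} {i : C.I} {m : ℕ}

theorem picard_le (hC : C.Base) {ρ : ℕ} {e : Fin ρ → Vec b} (he : C.IsBasisNS i e) :
    ρ + 2 ≤ b := by
  obtain ⟨x, y, hp⟩ := hC.per_exists i
  have hpos := hC.per_pos i x y hp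
  have hxy : ∀ s t : ℝ, s • x + t • y = 0 → s = 0 ∧ t = 0 := by
    intro s t h
    by_contra hcon
    have h1 : s ≠ 0 ∨ t ≠ 0 := by
      by_contra h2
      push Not at h2
      exact hcon h2
    have h3 := hpos s t h1
    rw [h, map_zero] at h3
    exact lt_irrefl _ h3
  have hli : LinearIndependent ℝ ![x, y] := LinearIndependent.pair_iff.2 hxy
  have hdis : Disjoint (Submodule.span ℝ (Set.range e)) (Submodule.span ℝ (Set.range ![x, y])) := by
    rw [Submodule.disjoint_def]
    intro v hv hv'
    obtain ⟨z, rfl⟩ := (mem_span_iff e v).1 hv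
    obtain ⟨h1, h2⟩ := orth_period hC he hp z
    obtain ⟨c, hc⟩ := (Submodule.mem_span_range_iff_exists_fun ℝ).1 hv'
    rw [Fin.sum_univ_two] at hc
    have hc' : c 0 • x + c 1 • y = comb e z := hc
    by_contra hne
    have h3 : c 0 ≠ 0 ∨ c 1 ≠ 0 := by
      by_contra h4
      push Not at h4
      rw [h4.1, h4.2, zero_smul, zero_smul, add_zero] at hc'
      exact hne hc'.symm
    have h5 := hpos _ _ h3
    have h6 : C.q (c 0 • x + c 1 • y) (c 0 • x + c 1 • y) = 0 := by
      conv_lhs => arg 1; rw [hc']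
      rw [map_add, map_smul, map_smul, h1, h2, smul_zero, smul_zero, add_zero]
    rw [h6] at h5
    exact lt_irrefl _ h5
  have h1 := (he.indep.sum_type hli hdis).fintype_card_le_finrank
  simpa using h1

/-- The cone conjecture for `b ≤ 4`. -/
theorem cone_le4 (hb : b ≤ 4) (hC : C.Small) (hi : C.Projective i)
    (hnv : ∀ α ∈ lattice b, α ≠ 0 → C.q α α = 0 → C.Nef i α →
      α ∈ C.effCone i)
    {a : Vec b} {f : Fin m → Vec b} (hf : C.IsContraction i a f) {G : Subgroup (GL (Fin m) ℤ)}
    (hG : C.IsAutomorphismGroup i f G) : HasDomain G (C.nefEff i f) := by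
  have hB := hC.toBase
  obtain ⟨ρ, e, he⟩ := exists_basis hB i
  have hρ := picard_le hB he
  have hNS : C.realNS i = Submodule.span ℝ (Set.range e) := by
    ext v
    rw [he.mem_realNS, mem_span_iff]
    exact ⟨fun ⟨x, hx⟩ => ⟨x, hx.symm⟩, fun ⟨x, hx⟩ => ⟨x, hx.symm⟩⟩
  have hrk : finrank ℝ (C.realNS i) = ρ := by
    rw [hNS, finrank_span_eq_card he.indep, Fintype.card_fin]
  have hfle : Submodule.span ℝ (Set.range f) ≤ C.realNS i := by
    refine Submodule.span_le.2 ?_
    rintro _ ⟨k, rfl⟩
    exact Submodule.subset_span (hf.basis k)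
  have hrkf : finrank ℝ (Submodule.span ℝ (Set.range f)) = m := by
    rw [finrank_span_eq_card hf.indep, Fintype.card_fin]
  have hm2 : m ≤ ρ := by
    rw [← hrkf, ← hrk]
    exact Submodule.finrank_mono hfle
  have hm0 : m ≠ 0 := by
    rintro rfl
    have haf : a ∈ Submodule.span ℝ (Set.range f) := by
      rw [hf.range]
      refine ⟨Submodule.subset_span hf.line, 1, ?_, ?_⟩
      · rw [one_smul, ← two_smul ℝ]
        exact nef_smul hB hf.nef two_pos
      · rw [one_smul, sub_self]
        exact nef_zero hB hi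
    rw [Set.range_eq_empty, Submodule.span_empty, Submodule.mem_bot] at haf
    have := hf.big
    rw [haf, map_zero] at this
    exact lt_irrefl _ this
  obtain rfl | rfl : m = 1 ∨ m = 2 := by omega
  · exact domain_one hB hi hf hG
  · have hρ2 : ρ = 2 := by omega
    subst hρ2
    obtain ⟨B, hBm⟩ := exists_gram hB he
    have hi' := hi
    obtain ⟨A, hAl, hA⟩ := hi'
    have hAline : C.IsLine i A := by
      obtain ⟨x, y, hp⟩ := hB.per_exists i
      obtain ⟨h1, h2⟩ := hB.kahler_type i x y hp A hA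
      exact ⟨hAl, (hB.cls_range i x y hp A).2 ⟨h1, h2⟩⟩
    obtain ⟨h, rfl⟩ := (he.line_iff A).1 hAline
    have hspan : C.realNS i = Submodule.span ℝ (Set.range f) := by
      refine (Submodule.eq_of_le_of_finrank_eq hfle ?_).symm
      rw [hrkf, hrk]
    have hspan' : ∀ v ∈ C.realNS i, ∃ x, comb f x = v := fun v hv => by
      rw [hspan] at hv
      exact (mem_span_iff f v).1 hv
    -- the matrix of `f` in terms of `e`
    choose z hz using fun l => (he.line_iff (f l)).1 (hf.basis l)
    obtain ⟨P, hP⟩ : ∃ P : Matrix (Fin 2) (Fin 2) ℤ, ∀ k l, P k l = z l k := ⟨fun k l => z l k,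
      fun _ _ => rfl⟩
    have hPf : ∀ w : Fin 2 → ℤ, comb f (intVec w) = comb e (intVec (P.mulVec w)) := by
      intro w
      have h1 : comb f (intVec w) = ∑ l, (w l : ℝ) • comb e (intVec (z l)) :=
        Finset.sum_congr rfl fun l _ => by rw [hz l]; rfl
      rw [h1]
      unfold comb
      simp only [Finset.smul_sum, smul_smul]
      rw [Finset.sum_comm]
      refine Finset.sum_congr rfl fun k _ => ?_
      rw [← Finset.sum_smul]
      congr 1
      simp only [intVec, Matrix.mulVec, dotProduct, hP]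
      push_cast
      exact Finset.sum_congr rfl fun l _ => mul_comm _ _
    have hdet : P.det ≠ 0 := by
      intro h0
      obtain ⟨w, hw, hw0⟩ := Matrix.exists_mulVec_eq_zero_iff.2 h0
      apply hw
      have h1 := hPf w
      have hz0 : (intVec (0 : Fin 2 → ℤ) : Fin 2 → ℝ) = 0 := by
        funext k
        simp [intVec]
      rw [hw0, hz0, comb_zero] at h1
      have h2 : (intVec w : Fin 2 → ℝ) = 0 := comb_injective hf.indep (by rw [h1, comb_zero])
      funext k
      have h3 := congrFun h2 k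
      simpa [intVec] using h3
    have hfr : C.RatBasis i f := by
      intro v hv
      obtain ⟨w, rfl⟩ := (he.line_iff v).1 hv
      refine ⟨P.det.natAbs * P.det.natAbs, ?_, P.det • (P.adjugate.mulVec w), ?_⟩
      · have := Int.natAbs_pos.2 hdet
        exact Nat.mul_pos this this
      · rw [hPf, Matrix.mulVec_smul, Matrix.mulVec_mulVec, Matrix.mul_adjugate, Matrix.smul_mulVec,
          Matrix.one_mulVec, ← comb_smul]
        congr 1
        obtain ⟨d, hd⟩ : ∃ d, d = P.det := ⟨_, rfl⟩
        rw [← hd]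
        funext k
        simp only [intVec, Pi.smul_apply, smul_eq_mul]
        push_cast
        rw [Nat.cast_natAbs, Int.cast_abs, abs_mul_abs_self]
        ring
    obtain ⟨t, htK, hcov⟩ := (plane hC hi he hBm hA).covered
    refine domain_of_cover hC hi he hf.indep hf.basis hfr hspan' hG hnv
      (fun j => comb e (intVec (t j))) (fun j => (he.line_iff _).2 ⟨t j, rfl⟩)
      (fun j => nef_of_closure (htK j)) ?_
    intro v hv hvK
    obtain ⟨x, rfl⟩ := (he.mem_realNS v).1 hv
    obtain ⟨T, ⟨φ, hφ, hT⟩, c, hc, hxc⟩ := hcov x hvK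
    refine ⟨φ, hφ, c, hc, ?_⟩
    rw [hxc, hT]
    congr 1
    rw [Fin.sum_univ_two, Fin.sum_univ_two, comb_add, comb_smul, comb_smul]

/-- The cone conjecture, for all `b`. -/
theorem cone_main (hC : C.Small) (h5 : 5 ≤ b → C.Glob ∧ C.ConeFacts) (hi : C.Projective i)
    (hnv : ∀ α ∈ lattice b, α ≠ 0 → C.q α α = 0 → C.Nef i α →
      α ∈ C.effCone i)
    {a : Vec b} {f : Fin m → Vec b} (hf : C.IsContraction i a f) {G : Subgroup (GL (Fin m) ℤ)}
    (hG : C.IsAutomorphismGroup i f G) : HasDomain G (C.nefEff i f) := by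
  rcases le_or_gt b 4 with hb | hb
  · exact cone_le4 hb hC hi hnv hf hG
  · obtain ⟨h1, h2⟩ := h5 hb
    exact cone_of_nonvanishing h1 h2 hnv hi (hf.face h1 h2 hi) hG

end Cls

end Pool.Agent.SCV
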