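import Pool.Agent.SCV.Pub
import Pool.Agent.SCV.Le4

/-!
# SCV/Adapter : the cone conjecture for a member on which nef line bundles are semiample
-/

set_option autoImplicit false

open Module

namespace Pool.Agent.SCV

open Pool.Agent.H93Cone Pool.Agent.H55.Cone Pool.Agent.SYM.V3
open Pool.Agent.SYP (Vec IsIntegral)

namespace ConeData

variable {n b : ℕ} {C : Fam n b} {P : ConeData C} {m : ℕ}

theorem q_add_right (hC : C.LatticeAxioms) (x y y' : Vec b) :
    C.q x (y + y') = C.q x y + C.q x y' := by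
  rw [hC.symm, hC.q_add, hC.symm y, hC.symm y']

theorem q_smul_right (hC : C.LatticeAxioms) (c : ℝ) (x y : Vec b) :
    C.q x (c • y) = c * C.q x y := by
  rw [hC.symm, hC.q_smul, hC.symm y]

/-- the internal class -/
noncomputable def toCls (hC : C.LatticeAxioms) (P : ConeData C) : Cls b where
  q := LinearMap.mk₂ ℝ C.q hC.q_add hC.q_smul (q_add_right hC) (fun c x y => q_smul_right hC c x y)
  S := C.S
  I := C.I
  per := C.per
  kahler := C.kahler
  Mon := P.Mon
  Aut := P.Aut
  Prime := P.Prime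
  cl := P.cl

theorem toProj {hC : C.LatticeAxioms} {P : ConeData C} {i : C.I}
    (h : (toCls hC P).Projective i) : C.Projective i := by
  obtain ⟨A, h1, h2⟩ := h
  exact ⟨A, h2, h1⟩

theorem type_iff (hL : C.LatticeAxioms) (hP : P.Axioms) {i : C.I} {x y : Vec b}
    (hp : C.per i x y) (v : Vec b) :
    (∀ x' y', C.per i x' y' → C.Type11 x' y' v) ↔ C.Type11 x y v := by
  refine ⟨fun h => h x y hp, fun h x' y' hp' => ?_⟩
  obtain ⟨s, t, u, w, rfl, rfl⟩ := hP.per_span i x y x' y' hp hp'
  constructor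
  · rw [q_add_right hL, q_smul_right hL, q_smul_right hL, h.1, h.2]
    ring
  · rw [q_add_right hL, q_smul_right hL, q_smul_right hL, h.1, h.2]
    ring

theorem toCls_base (hL : C.LatticeAxioms) (hK : C.KahlerAxioms) (hP : P.Axioms) :
    (toCls hL P).Base where
  symm := hL.symm
  integral := fun x hx y hy => hL.integral x y hx hy
  signature := hL.signature
  per_exists := hK.per_exists
  per_pos := hK.per_pos
  kahler_type := fun i x y hp κ hκ => hK.kahler_type i x y hp κ hκ
  kahler_pos := hK.kahler_pos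
  kahler_add := fun i κ hκ a ha => hK.kahler_add i κ hκ a ha
  kahler_smul := hK.kahler_smul
  cls_range := fun i x y hp v => type_iff hL hP hp v
  prime_rat := fun i hi Q => by
    obtain ⟨N, h1, h2⟩ := hP.prime_rat i (toProj hi) Q
    exact ⟨N, by exact_mod_cast h1, h2⟩
  prime_type := fun i hi Q x y hp => hP.prime_type i (toProj hi) Q x y hp
  prime_pos := fun i hi Q A hA => hP.prime_pos i (toProj hi) Q A hA
  big := fun i hi A hA v hv h1 h2 => by
    obtain ⟨k, hk, hE⟩ := hP.big i (toProj hi) A hA v hv h1 h2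
    exact Cls.effective_mem (C := toCls hL P) hk hE

theorem toCls_small (hL : C.LatticeAxioms) (hK : C.KahlerAxioms) (hP : P.Axioms) :
    (toCls hL P).Small where
  toBase := toCls_base hL hK hP
  aut_isom := fun i hi φ hφ => hP.aut_isom i (toProj hi) φ hφ
  aut_line := fun i hi φ hφ v hv => by
    obtain ⟨x, y, hp⟩ := hK.per_exists i
    refine ⟨((hP.aut_isom i (toProj hi) φ hφ).2 v).2 hv.1, ?_⟩
    exact (type_iff hL hP hp _).2
      (hP.aut_type i x y (toProj hi) hp φ hφ v ((type_iff hL hP hp v).1 hv.2))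
  aut_kahler := fun i hi φ hφ A hA => hP.aut_kahler i (toProj hi) φ hφ A hA
  opn := fun _ _ _ hi hp κ hκ => by
    obtain ⟨ε, hε, h⟩ := hP.kahler_open _ _ _ (toProj hi) hp κ hκ
    exact ⟨ε, hε, fun B h1 h2 h3 => h B ⟨h1, h2⟩ h3⟩
  curve := fun i hi v hv hn hq hK => hP.curve i (toProj hi) v hv hn hq hK
  polarised := fun _ _ _ L hi hp hL' hLl => by
    obtain ⟨F, hF, h⟩ := hP.polarised _ _ _ L (toProj hi) hp hL' hLl
    exact ⟨F, hF, fun g hg h1 h2 h3 => h g hg h1 h2 h3⟩

theorem toCls_glob (hL : C.LatticeAxioms) (hK : C.KahlerAxioms) (hP : P.Axioms)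
    (h5 : P.Global) : (toCls hL P).Glob where
  toBase := toCls_base hL hK hP
  wall_mem := h5.wall_int
  mon_index := h5.mon_index
  wall_bdd := h5.wall_bdd
  ample := fun i x y hp A hA hAl B hB h1 h2 h3 => h5.ample i x y hp A hA hAl B hB h1 h2
    fun s hs hst => h3 s hs hst.1 hst.2
  torelli := fun i hi γ hγ h1 h2 => h5.torelli i (toProj hi) γ hγ h1 h2

theorem toCls_cone (hL : C.LatticeAxioms) (h5 : P.Global) : (toCls hL P).ConeFacts where
  neg := h5.wall_neg
  mon := h5.wall_mon
  ne := fun i x y hi hp A hA s hs h1 h2 =>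
    h5.wall_kahler i x y (toProj hi) hp A hA s hs ⟨h1, h2⟩

theorem toCls_contraction (hL : C.LatticeAxioms) {i : C.I} {a : Vec b} {f : Fin m → Vec b}
    (hf : IsContraction C i a f) : (toCls hL P).IsContraction i a f where
  line := hf.line
  nef := hf.nef
  big := hf.big
  basis := hf.basis
  indep := hf.indep
  range := hf.range

theorem toCls_aut (hL : C.LatticeAxioms) {i : C.I} {f : Fin m → Vec b}
    {G : Subgroup (GL (Fin m) ℤ)} (hG : P.IsAutomorphismGroup i f G) :
    (toCls hL P).IsAutomorphismGroup i f G where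
  nef := hG.nef
  eff := hG.eff
  aut := hG.aut

/-- The cone conjecture for the birational contractions of a projective member on which all nef
line bundles are semiample. -/
theorem cone_of_semiample (hL : C.LatticeAxioms) (hK : C.KahlerAxioms) (hP : P.Axioms)
    {i : C.I} (hi : C.Projective i)
    (hs : ∀ a, C.NefLine i a → C.Semiample i a) {a : Vec b} {f : Fin m → Vec b}
    (hf : IsContraction C i a f) {G : Subgroup (GL (Fin m) ℤ)}
    (hG : P.IsAutomorphismGroup i f G) : HasDomain G (P.nefEff i f) :=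
  Cls.cone_main (C := toCls hL P) (toCls_small hL hK hP)
    (fun h5 => ⟨toCls_glob hL hK hP (hP.global h5), toCls_cone hL (hP.global h5)⟩)
    (by
      obtain ⟨A, hA, hA'⟩ := hi
      exact ⟨A, hA', hA⟩)
    (fun α hα _ _ hnef => by
      obtain ⟨k, hk, hE⟩ :=
        hP.semiample_effective i α ⟨hi, hα, hnef⟩ (hs α ⟨hi, hα, hnef⟩)
      exact Cls.effective_mem (C := toCls hL P) hk hE)
    (toCls_contraction hL hf) (toCls_aut hL hG)

end ConeData

end Pool.Agent.SCV
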