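import Pool.Agent.SCV.Hom
import Pool.Agent.SymCone.Iso

/-!
# NVC/Arith : the group `Γ`

(The same proof as in `SYZC/CArith` by helper15; please copy the private lemmas `posSub`, `posSub_relIndex`, `congr_index`,
`dvd_of_mem_ker` from there.)
`Γ = posSub ⊓ Mon.comap φ`, `φ` from `exists_hom`.
-/

set_option autoImplicit false

open Module

namespace Pool.Agent.SCV

open Pool.Agent.SYM.V3.Lat Pool.Agent.H93Cone Pool.Agent.SymCone

/-- The isometries which preserve the positive cone. -/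
private def posSub {ρ : ℕ} {B : Matrix (Fin ρ) (Fin ρ) ℤ} {h : Fin ρ → ℝ}
    (hB : Hyperbolic B h) : Subgroup (GL (Fin ρ) ℤ) where
  carrier := {g | g ∈ isoms B ∧ 0 < form B h (act g.val h)}
  one_mem' := by
    refine ⟨(isoms B).one_mem, ?_⟩
    have : act (1 : GL (Fin ρ) ℤ).val h = h := by
      rw [Units.val_one]
      simp [act]
    rw [this]
    exact hB.pos
  mul_mem' := by
    rintro g g' ⟨hg, hgp⟩ ⟨hg', hgp'⟩
    refine ⟨(isoms B).mul_mem hg hg', ?_⟩
    have hh : h ∈ openPos B h := ⟨hB.pos, hB.pos⟩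
    have h1 : act g'.val h ∈ openPos B h := ⟨by rw [form_act hg']; exact hB.pos, hgp'⟩
    have h2 : act g.val h ∈ openPos B h := ⟨by rw [form_act hg]; exact hB.pos, hgp⟩
    rw [Units.val_mul, act_mul_apply]
    exact (act_openPos hB hg hh h2 h1).2
  inv_mem' := by
    rintro g ⟨hg, hgp⟩
    refine ⟨(isoms B).inv_mem hg, ?_⟩
    have hh : h ∈ openPos B h := ⟨hB.pos, hB.pos⟩
    have h2 : act g.val h ∈ openPos B h := ⟨by rw [form_act hg]; exact hB.pos, hgp⟩
    have h3 := act_inv_closedPos hB hg hh h2 (openPos_subset hh)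
    exact (hB.mem_openPos h3 (by rw [form_act ((isoms B).inv_mem hg)]; exact hB.pos)).2

private theorem posSub_relIndex {ρ : ℕ} {B : Matrix (Fin ρ) (Fin ρ) ℤ} {h : Fin ρ → ℝ}
    (hB : Hyperbolic B h) : (posSub hB).relIndex (isoms B) ≠ 0 := by
  have hh : h ∈ openPos B h := ⟨hB.pos, hB.pos⟩
  -- an isometry which is not in `P` maps the open cone to its negative
  have key : ∀ g ∈ isoms B, g ∉ posSub hB → ∀ y ∈ openPos B h, -act g.val y ∈ openPos B h := by
    intro g hg hgP
    have h0 : ¬ 0 < form B h (act g.val h) := fun h1 => hgP ⟨hg, h1⟩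
    have hu : -act g.val h ∈ openPos B h := by
      have hsq : 0 < form B (-act g.val h) (-act g.val h) := by
        rw [form_neg_left, form_neg_right, neg_neg, form_act hg]; exact hB.pos
      refine hB.mem_openPos ⟨hsq.le, ?_⟩ hsq
      rw [form_neg_right]
      linarith
    intro y hy
    have hsq : 0 < form B (-act g.val y) (-act g.val y) := by
      rw [form_neg_left, form_neg_right, neg_neg, form_act hg]; exact hy.1
    refine hB.mem_openPos ((hB.mem_closedPos_iff hu hsq.le).2 ?_) hsq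
    rw [form_neg_left, form_neg_right, neg_neg, form_act hg]
    exact hB.nonneg_mul (openPos_subset hh) (openPos_subset hy)
  have hdvd : (posSub hB).relIndex (isoms B) ∣ 2 := by
    rw [Subgroup.relIndex_dvd_two_iff]
    by_cases hall : ∀ g ∈ isoms B, g ∈ posSub hB
    · exact ⟨1, (isoms B).one_mem, fun b hb => Or.inr (hall b hb)⟩
    · push Not at hall
      obtain ⟨g₀, hg₀, hg₀P⟩ := hall
      refine ⟨g₀, hg₀, fun b hb => ?_⟩
      by_cases hbP : b ∈ posSub hB
      · exact Or.inr hbP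
      · refine Or.inl ⟨(isoms B).mul_mem hb hg₀, ?_⟩
        have h1 := key b hb hbP _ (key g₀ hg₀ hg₀P h hh)
        rw [map_neg, neg_neg, ← act_mul_apply, ← Units.val_mul] at h1
        exact h1.2
  intro h0
  rw [h0] at hdvd
  exact absurd hdvd (by decide)

/-- The congruence subgroup has finite index. -/
private theorem congr_index {ρ : ℕ} (d : ℕ) (hd : 1 ≤ d) :
    (Matrix.GeneralLinearGroup.map (n := Fin ρ) (Int.castRingHom (ZMod d))).ker.index ≠ 0 := by
  have : NeZero d := ⟨by omega⟩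
  rw [Subgroup.index_ker]
  exact Nat.card_pos.ne'

private theorem dvd_of_mem_ker {ρ : ℕ} {d : ℕ} {g : GL (Fin ρ) ℤ}
    (hg : g ∈ (Matrix.GeneralLinearGroup.map (n := Fin ρ) (Int.castRingHom (ZMod d))).ker)
    (k l : Fin ρ) : (d : ℤ) ∣ g.val k l - (1 : Matrix (Fin ρ) (Fin ρ) ℤ) k l := by
  rw [MonoidHom.mem_ker] at hg
  have h1 := congrArg (fun u : GL (Fin ρ) (ZMod d) => u.val k l) hg
  simp only [Matrix.GeneralLinearGroup.map_apply, Units.val_one] at h1
  rw [← ZMod.intCast_eq_intCast_iff_dvd_sub]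
  simp only [eq_intCast] at h1
  rw [h1]
  by_cases hkl : k = l
  · subst hkl; simp
  · simp [Matrix.one_apply_ne hkl]

namespace Cls

variable {b : ℕ} {C : Cls b} {i : C.I} {ρ : ℕ} {e : Fin ρ → Vec b}

theorem exists_arithmetic (hC : C.Glob) (he : C.IsBasisNS i e) {B : Matrix (Fin ρ) (Fin ρ) ℤ}
    (hB : ∀ k l, (B k l : ℝ) = C.q (e k) (e l)) {h : Fin ρ → ℤ}
    (hA : comb e (intVec h) ∈ C.kahler i) :
    ∃ Γ : Subgroup (GL (Fin ρ) ℤ), IsArithmetic B (intVec h) Γ ∧
      ∀ g ∈ Γ, ∃ γ ∈ C.Mon, (∀ y, (∀ k, C.q y (e k) = 0) → γ y = y) ∧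
        ∀ x, γ (comb e x) = comb e (act g.val x) := by
  have hyp := hyperbolic hC.toBase he hB hA
  obtain ⟨φ, hφ1, hφ2, d, hd, hφ3⟩ := exists_hom hC.toBase he hB hyp
  refine ⟨posSub hyp ⊓ C.Mon.comap φ, ⟨fun g hg => hg.1.1, ?_, fun g hg => hg.1.2⟩, ?_⟩
  · refine Subgroup.relIndex_inf_ne_zero (posSub_relIndex hyp) ?_
    set K : Subgroup (GL (Fin ρ) ℤ) :=
      (Matrix.GeneralLinearGroup.map (n := Fin ρ) (Int.castRingHom (ZMod d))).ker with hK
    have h1 : (C.Mon.comap φ).relIndex (SymCone.isoms B ⊓ K) ≠ 0 := by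
      rw [Subgroup.relIndex_comap]
      refine fun h0 => hC.mon_index (Subgroup.relIndex_eq_zero_of_le_right ?_ h0)
      rw [Subgroup.map_le_iff_le_comap]
      intro g hg
      exact hφ3 g hg.1 (dvd_of_mem_ker hg.2)
    have h2 : (SymCone.isoms B ⊓ K).relIndex (SymCone.isoms B) ≠ 0 := by
      rw [Subgroup.inf_relIndex_left]
      have h3 : K.relIndex ⊤ ≠ 0 := by
        rw [Subgroup.relIndex_top_right]
        exact congr_index d hd
      exact fun h0 => h3 (Subgroup.relIndex_eq_zero_of_le_right le_top h0)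
    exact Subgroup.relIndex_ne_zero_trans h1 h2
  · intro g hg
    exact ⟨φ g, hg.2, hφ1 g, hφ2 g⟩

end Cls

end Pool.Agent.SCV
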