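import Pool.Agent.SYM.V3.Lat4
import Pool.Agent.H55.Cone.Defs

/-!
# SCV/Defs : the nef cone, the effective cone and the automorphism group of a projective member of a
class of primitive symplectic varieties, and of its birational contractions (internal form)
-/

set_option autoImplicit false

open Module

namespace Pool.Agent.SCV

open Pool.Agent.H93Cone Pool.Agent.H55.Cone Pool.Agent.SYM.V3.Lat

/-- The vector with coordinates `x` with respect to the vectors `f`. -/
noncomputable def comb {b m : ℕ} (f : Fin m → Vec b) (x : Fin m → ℝ) : Vec b := ∑ k, x k • f k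

/-- Lattice, walls, periods, Kähler cones, monodromy group, automorphism groups, prime divisors. -/
structure Cls (b : ℕ) extends LData b where
  Mon : Subgroup (Vec b ≃ₗ[ℝ] Vec b)
  Aut : I → Subgroup (Vec b ≃ₗ[ℝ] Vec b)
  Prime : I → Type
  cl : (i : I) → Prime i → Vec b

namespace Cls

variable {b : ℕ} (C : Cls b) {m : ℕ}

/-- `g` is an isometry of the lattice. -/
def IsIsom (g : Vec b ≃ₗ[ℝ] Vec b) : Prop :=
  (∀ x y, C.q (g x) (g y) = C.q x y) ∧ ∀ x, g x ∈ lattice b ↔ x ∈ lattice b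

/-- The group of isometries of the lattice. -/
def isoms : Subgroup (Vec b ≃ₗ[ℝ] Vec b) where
  carrier := {g | C.IsIsom g}
  one_mem' := ⟨fun _ _ => rfl, fun _ => Iff.rfl⟩
  mul_mem' := fun {g h} hg hh =>
    ⟨fun x y => (hg.1 (h x) (h y)).trans (hh.1 x y), fun x => (hg.2 (h x)).trans (hh.2 x)⟩
  inv_mem' := by
    intro g hg
    refine ⟨fun x y => ?_, fun x => ?_⟩
    · have h := hg.1 (g.symm x) (g.symm y)
      rw [g.apply_symm_apply, g.apply_symm_apply] at h
      exact h.symm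
    · have h := hg.2 (g.symm x)
      rw [g.apply_symm_apply] at h
      exact h.symm

/-- `v` is of type `(1,1)` on `X_i`. -/
def T11 (i : C.I) (v : Vec b) : Prop := ∀ x y, C.per i x y → C.q v x = 0 ∧ C.q v y = 0

/-- `a` is the class of a line bundle on `X_i`. -/
def IsLine (i : C.I) (a : Vec b) : Prop := a ∈ lattice b ∧ C.T11 i a

/-- `a` is the class of an effective divisor on `X_i`. -/
def Effective (i : C.I) (a : Vec b) : Prop :=
  ∃ D : C.Prime i →₀ ℕ, D.sum (fun Q m => (m : ℝ) • C.cl i Q) = a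

/-- `X_i` is projective. -/
def Projective (i : C.I) : Prop := ∃ A ∈ lattice b, A ∈ C.kahler i

/-- `a` is a nef class. -/
def Nef (i : C.I) (a : Vec b) : Prop := a ∈ closure (C.kahler i)

/-- The real Néron-Severi space of `X_i`, spanned by the classes of line bundles. -/
def realNS (i : C.I) : Submodule ℝ (Vec b) := Submodule.span ℝ {v | C.IsLine i v}

/-- The effective cone of `X_i`, spanned by the classes of prime divisors. -/
def effCone (i : C.I) : PointedCone ℝ (Vec b) := PointedCone.hull ℝ (Set.range (C.cl i))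

structure Base : Prop extends toLBase : LData.Base C.toLData where
  cls_range : ∀ i x y, C.per i x y → ∀ v, C.T11 i v ↔ C.q v x = 0 ∧ C.q v y = 0
  prime_rat : ∀ i, C.Projective i → ∀ Q, ∃ N : ℝ, 0 < N ∧ N • C.cl i Q ∈ lattice b
  prime_type : ∀ i, C.Projective i → ∀ Q, C.T11 i (C.cl i Q)
  prime_pos : ∀ i, C.Projective i → ∀ Q, ∀ A ∈ C.kahler i, 0 < C.q (C.cl i Q) A
  big : ∀ i, C.Projective i → ∀ A ∈ C.kahler i, ∀ v, C.IsLine i v → 0 < C.q v v → 0 < C.q v A →
    v ∈ C.effCone i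

/-- the facts for `b ≥ 5` -/
structure Glob : Prop extends C.Base where
  wall_mem : ∀ s ∈ C.S, s ∈ lattice b
  mon_index : C.Mon.relIndex C.isoms ≠ 0
  wall_bdd : ∃ K : ℝ, ∀ s ∈ C.S, -K ≤ C.q s s
  ample : ∀ i x y, C.per i x y → ∀ A ∈ C.kahler i, A ∈ lattice b → ∀ B ∈ C.realNS i, 0 < C.q B B →
    0 < C.q B A → (∀ s ∈ C.S, C.q s x = 0 → C.q s y = 0 → 0 < C.q s A → 0 < C.q s B) →
    B ∈ C.kahler i
  torelli : ∀ i, C.Projective i → ∀ γ ∈ C.Mon, (∀ x y, C.per i x y → γ x = x ∧ γ y = y) →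
    (∃ A ∈ C.kahler i, γ A ∈ C.kahler i) → γ ∈ C.Aut i

structure ConeFacts : Prop where
  neg : ∀ s ∈ C.S, -s ∈ C.S
  mon : ∀ γ ∈ C.Mon, ∀ s ∈ C.S, γ s ∈ C.S
  ne : ∀ i x y, C.Projective i → C.per i x y → ∀ A ∈ C.kahler i, ∀ s ∈ C.S, C.q s x = 0 →
    C.q s y = 0 → C.q s A ≠ 0

/-- the facts on automorphisms and on the Kähler cone, for all `b` -/
structure Small : Prop extends C.Base where
  aut_isom : ∀ i, C.Projective i → ∀ φ ∈ C.Aut i, C.IsIsom φ
  aut_line : ∀ i, C.Projective i → ∀ φ ∈ C.Aut i, ∀ v, C.IsLine i v → C.IsLine i (φ v)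
  aut_kahler : ∀ i, C.Projective i → ∀ φ ∈ C.Aut i, ∀ A ∈ C.kahler i, φ A ∈ C.kahler i
  opn : ∀ i x y, C.Projective i → C.per i x y → ∀ κ ∈ C.kahler i, ∃ ε : ℝ, 0 < ε ∧
    ∀ B, C.q B x = 0 → C.q B y = 0 → dist B κ < ε → B ∈ C.kahler i
  curve : ∀ i, C.Projective i → ∀ v ∈ C.realNS i, C.Nef i v → 0 < C.q v v → v ∉ C.kahler i →
    ∃ c, C.IsLine i c ∧ C.q c v = 0 ∧ ∀ κ ∈ C.kahler i, 0 < C.q c κ
  polarised : ∀ i x y L, C.Projective i → C.per i x y → L ∈ C.kahler i → L ∈ lattice b →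
    ∃ F : Set (Vec b), F.Finite ∧ ∀ g, C.IsIsom g → g x = x → g y = y → g L ∈ C.kahler i →
      ∃ L' ∈ F, ∃ φ ∈ C.Aut i, φ L' = g L

/-- A birational contraction `π : X_i → M`. -/
structure IsContraction (i : C.I) (a : Vec b) (f : Fin m → Vec b) : Prop where
  line : C.IsLine i a
  nef : C.Nef i a
  big : 0 < C.q a a
  basis : ∀ k, C.IsLine i (f k)
  indep : LinearIndependent ℝ f
  range : ∀ v, v ∈ Submodule.span ℝ (Set.range f) ↔
    v ∈ C.realNS i ∧ ∃ t : ℝ, C.Nef i (t • a + v) ∧ C.Nef i (t • a - v)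

/-- A birational contraction, in terms of the walls. -/
structure IsFace (i : C.I) (a : Vec b) (f : Fin m → Vec b) : Prop where
  line : C.IsLine i a
  nef : C.Nef i a
  big : 0 < C.q a a
  basis : ∀ k, C.IsLine i (f k)
  indep : LinearIndependent ℝ f
  range : ∀ v, v ∈ Submodule.span ℝ (Set.range f) ↔
    v ∈ C.realNS i ∧ ∀ s ∈ C.S, C.IsLine i s → C.q a s = 0 → C.q v s = 0

/-- The nef and effective cone `Nef(M) ∩ Eff(M)`, in coordinates with respect to `f`. -/
def nefEff (i : C.I) (f : Fin m → Vec b) : Set (Fin m → ℝ) :=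
  {x | C.Nef i (comb f x) ∧ comb f x ∈ C.effCone i}

/-- `G` is the action of the automorphism group of `M` on the lattice `NS(M)`. -/
structure IsAutomorphismGroup (i : C.I) (f : Fin m → Vec b) (G : Subgroup (GL (Fin m) ℤ)) :
    Prop where
  nef : ∀ g ∈ G, ∀ x, C.Nef i (comb f x) → C.Nef i (comb f (act g.val x))
  eff : ∀ g ∈ G, ∀ x, comb f x ∈ C.effCone i → comb f (act g.val x) ∈ C.effCone i
  aut : ∀ φ ∈ C.Aut i, (∀ x, ∃ y, φ (comb f x) = comb f y) →
    ∃ g ∈ G, ∀ x, comb f (act g.val x) = φ (comb f x)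

end Cls

end Pool.Agent.SCV
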