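import Pool.Agent.SCV.Fin
import Pool.Agent.SymCone.Nbd

/-!
# SCV/Face : the space of a contraction and the walls
-/

set_option autoImplicit false

open Module Filter Topology

namespace Pool.Agent.SCV

open Pool.Agent.SYM.V3.Lat Pool.Agent.H93Cone Pool.Agent.SymCone

namespace Cls

variable {b : ℕ} {C : Cls b} {i : C.I} {m : ℕ}

theorem nef_smul (hC : C.Base) {v : Vec b} (hv : C.Nef i v) {c : ℝ} (hc : 0 < c) :
    C.Nef i (c • v) := by
  have h1 : (fun y : Vec b => c • y) '' closure (C.kahler i) ⊆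
      closure ((fun y => c • y) '' C.kahler i) :=
    image_closure_subset_closure_image (continuous_const_smul c)
  refine closure_mono ?_ (h1 ⟨v, hv, rfl⟩)
  rintro _ ⟨y, hy, rfl⟩
  exact hC.kahler_smul i y hy c hc

/-- the products of nef classes with a class which is nonnegative on Kähler classes -/
theorem nef_nonneg {s v : Vec b} (hs : ∀ A ∈ C.kahler i, 0 ≤ C.q s A)
    (hv : C.Nef i v) : 0 ≤ C.q s v := by
  have h1 : closure (C.kahler i) ⊆ {u | 0 ≤ C.q s u} :=
    closure_minimal hs (isClosed_le continuous_const (LinearMap.continuous_of_finiteDimensional _))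
  exact h1 hv

private theorem face_side (hC : C.Glob) (hW : C.ConeFacts) (hi : C.Projective i) {x₀ y₀ : Vec b}
    (hp : C.per i x₀ y₀) {s : Vec b} (hs : s ∈ C.S) (h1 : C.q s x₀ = 0) (h2 : C.q s y₀ = 0)
    {A v : Vec b} (hA : A ∈ C.kahler i) (hsA : 0 < C.q s A) (hv : v ∈ C.kahler i) :
    0 < C.q s v := by
  by_contra hcon
  push Not at hcon
  set c : ℝ := -C.q s v / C.q s A with hc
  have hc0 : 0 ≤ c := div_nonneg (by linarith) hsA.le
  have hmem : v + c • A ∈ C.kahler i := by
    rcases hc0.eq_or_lt with h | h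
    · rw [← h, zero_smul, add_zero]
      exact hv
    · exact hC.kahler_add i v hv _ (subset_closure (hC.kahler_smul i A hA c h))
  refine hW.ne i x₀ y₀ hi hp _ hmem s hs h1 h2 ?_
  rw [map_add, map_smul, smul_eq_mul, hc]
  field_simp
  ring

theorem IsContraction.face (hC : C.Glob) (hW : C.ConeFacts) (hproj : C.Projective i) {a : Vec b}
    {f : Fin m → Vec b} (hf : C.IsContraction i a f) : C.IsFace i a f := by
  refine ⟨hf.line, hf.nef, hf.big, hf.basis, hf.indep, fun v => ?_⟩
  rw [hf.range]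
  obtain ⟨ρ, e, he⟩ := exists_basis hC.toBase i
  obtain ⟨B, hB⟩ := exists_gram hC.toBase he
  have hi := hproj
  obtain ⟨x₀, y₀, hp⟩ := hC.per_exists i
  obtain ⟨A, hAl, hA⟩ := hproj
  have hAline : C.IsLine i A := by
    obtain ⟨h1, h2⟩ := hC.kahler_type i x₀ y₀ hp A hA
    exact ⟨hAl, (hC.cls_range i x₀ y₀ hp A).2 ⟨h1, h2⟩⟩
  constructor
  · rintro ⟨hv, t, h1, h2⟩
    refine ⟨hv, fun s hs hsl has => ?_⟩
    obtain ⟨hsx, hsy⟩ := (hC.cls_range i x₀ y₀ hp s).1 hsl.2
    -- for every wall which is positive on `A`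
    have key : ∀ s ∈ C.S, C.q s x₀ = 0 → C.q s y₀ = 0 → 0 < C.q s A → C.q a s = 0 →
        C.q v s = 0 := by
      intro s hs hsx hsy hsA has
      have hnn : ∀ A' ∈ C.kahler i, 0 ≤ C.q s A' := fun A' hA' =>
        (face_side hC hW hi hp hs hsx hsy hA hsA hA').le
      have h3 := nef_nonneg hnn h1
      have h4 := nef_nonneg hnn h2
      rw [map_add, map_smul, hC.symm s a, has, smul_zero, zero_add] at h3
      rw [map_sub, map_smul, hC.symm s a, has, smul_zero, zero_sub] at h4
      rw [hC.symm]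
      linarith
    rcases lt_or_gt_of_ne (hW.ne i x₀ y₀ hi hp A hA s hs hsx hsy) with h3 | h3
    · have h4 := key (-s) (hW.neg s hs) (by rw [map_neg, LinearMap.neg_apply, hsx, neg_zero])
        (by rw [map_neg, LinearMap.neg_apply, hsy, neg_zero])
        (by rw [map_neg, LinearMap.neg_apply]; linarith) (by rw [map_neg, has, neg_zero])
      rw [map_neg, neg_eq_zero] at h4
      exact h4
    · exact key s hs hsx hsy h3 has
  · rintro ⟨hv, h1⟩
    refine ⟨hv, ?_⟩
    obtain ⟨h, rfl⟩ := (he.line_iff A).1 hAline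
    have hyp := hyperbolic hC.toBase he hB hA
    obtain ⟨a0, rfl⟩ := (he.line_iff a).1 hf.line
    obtain ⟨x, rfl⟩ := (he.mem_realNS v).1 hv
    obtain ⟨K, hK⟩ := hC.wall_bdd
    have hach : intVec a0 ∈ chamber B (intVec h) (walls C e) :=
      (nef_iff hC hW he hB hA _).1 hf.nef
    have haa : 0 < form B (intVec a0) (intVec a0) := by
      rw [form_comb hB]
      exact hf.big
    have hev := eventually_mem_chamber hyp (walls C e) K (fun w hw => by
      rw [form_comb hB]
      exact hK _ hw) hach haa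
    have hx : ∀ w ∈ walls C e, form B (intVec a0) (intVec w) = 0 →
        form B x (intVec w) = 0 := by
      intro w hw h2
      rw [form_comb hB] at h2 ⊢
      exact h1 _ hw ((he.line_iff _).2 ⟨w, rfl⟩) h2
    have hT : Tendsto (fun t : ℝ => intVec a0 + t • x) (𝓝 0) (𝓝 (intVec a0)) := by
      have h2 : Continuous fun t : ℝ => (intVec a0 : Fin ρ → ℝ) + t • x := by fun_prop
      have h3 := h2.tendsto 0
      rwa [zero_smul, add_zero] at h3
    have hev2 := hT.eventually hev
    obtain ⟨ε, hε, hball⟩ := Metric.eventually_nhds_iff.1 hev2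
    have hmem : ∀ t : ℝ, |t| < ε → C.Nef i (comb e (intVec a0 + t • x)) := by
      intro t ht
      refine (nef_iff hC hW he hB hA _).2 (hball (by rwa [Real.dist_eq, sub_zero]) ?_)
      intro w hw h2
      rw [form_add_left, form_smul_left, h2, hx w hw h2, mul_zero, add_zero]
    have hδ : 0 < ε / 2 := by positivity
    have h3 := hmem (ε / 2) (by rw [abs_of_pos hδ]; linarith)
    have h4 := hmem (-(ε / 2)) (by rw [abs_neg, abs_of_pos hδ]; linarith)
    refine ⟨(ε / 2)⁻¹, ?_, ?_⟩
    · have h5 := nef_smul hC.toBase h3 (inv_pos.2 hδ)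
      rwa [comb_add, comb_smul, smul_add, smul_smul, inv_mul_cancel₀ hδ.ne', one_smul] at h5
    · have h5 := nef_smul hC.toBase h4 (inv_pos.2 hδ)
      rwa [comb_add, comb_smul, smul_add, smul_smul, mul_neg, inv_mul_cancel₀ hδ.ne', neg_smul,
        one_smul, ← sub_eq_add_neg] at h5

end Cls

end Pool.Agent.SCV
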