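import Pool.Agent.SCV.Adapter
import Pool.Agent.SYM.V3.Final

/-!
# SCV/Final : the cone conjecture for primitive symplectic varieties
-/

set_option autoImplicit false

open Module

namespace Pool.Agent.SCV

open Pool.Agent.H93Cone Pool.Agent.H55.Cone Pool.Agent.SYM.V3
open Pool.Agent.SYP (Vec IsIntegral)

namespace ConeData

variable {n b : ℕ} {C : Fam n b} {P : ConeData C} {m : ℕ}

/-- The cone conjecture for the birational contractions of the projective members. -/
theorem cone_conjecture (hC : C.Published) (hP : P.Axioms) {i : C.I} (hi : C.Projective i)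
    {a : Vec b} {f : Fin m → Vec b} (hf : IsContraction C i a f) {G : Subgroup (GL (Fin m) ℤ)}
    (hG : P.IsAutomorphismGroup i f G) : HasDomain G (P.nefEff i f) :=
  cone_of_semiample hC.toLatticeAxioms hC.toKahlerAxioms hP hi (fun a ha => hC.main i a ha) hf hG

end ConeData

end Pool.Agent.SCV
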