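import Pool.Agent.SymCone.Iso
import Pool.Agent.H93Cone.Basic

/-!
# SCV/Iso2 : the isotropic lines of a binary form, Pell's equation
-/

set_option autoImplicit false

namespace Pool.Agent.SCV

open Pool.Agent.H93Cone Pool.Agent.SymCone

variable {B : Matrix (Fin 2) (Fin 2) ℤ} {h : Fin 2 → ℤ}

/-- the congruence subgroup -/
def cong (d : ℕ) : Subgroup (GL (Fin 2) ℤ) :=
  (Matrix.GeneralLinearGroup.map (n := Fin 2) (Int.castRingHom (ZMod d))).ker

theorem dvd_of_mem_cong {d : ℕ} {g : GL (Fin 2) ℤ} (hg : g ∈ cong d) (k l : Fin 2) :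
    (d : ℤ) ∣ g.val k l - (1 : Matrix (Fin 2) (Fin 2) ℤ) k l := by
  rw [cong, MonoidHom.mem_ker] at hg
  have h1 := congrArg (fun u : GL (Fin 2) (ZMod d) => u.val k l) hg
  simp only [Matrix.GeneralLinearGroup.map_apply, Units.val_one] at h1
  rw [← ZMod.intCast_eq_intCast_iff_dvd_sub]
  simp only [eq_intCast] at h1
  rw [h1]
  by_cases hkl : k = l
  · subst hkl; simp
  · simp [Matrix.one_apply_ne hkl]

/-- `E₁`, `E₂` are isotropic with sum `h`; `E₁` is rational, or an eigenvector of an isometry -/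
structure Iso (B : Matrix (Fin 2) (Fin 2) ℤ) (h : Fin 2 → ℤ) (E₁ E₂ : Fin 2 → ℝ) : Prop where
  sum : intVec h = E₁ + E₂
  e1 : form B E₁ E₁ = 0
  e2 : form B E₂ E₂ = 0
  e12 : 0 < form B E₁ E₂
  span : ∀ x, ∃ x₁ x₂ : ℝ, x = x₁ • E₁ + x₂ • E₂
  alt : (∃ r : ℝ, 0 < r ∧ ∃ z : Fin 2 → ℤ, intVec z = r • E₁) ∨
    ∀ d : ℕ, 1 ≤ d → ∃ g ∈ isoms B, g ∈ cong d ∧
      ∃ l : ℝ, 1 < l ∧ act g.val E₁ = l • E₁ ∧ act g.val E₂ = l⁻¹ • E₂

theorem form_two (hs : B 1 0 = B 0 1) (x y : Fin 2 → ℝ) : form B x y =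
    B 0 0 * (x 0 * y 0) + B 0 1 * (x 0 * y 1 + x 1 * y 0) + B 1 1 * (x 1 * y 1) := by
  simp only [form, dotProduct, Matrix.mulVec, Fin.sum_univ_two, Matrix.map_apply, hs]
  ring

theorem act_two (M : Matrix (Fin 2) (Fin 2) ℤ) (x : Fin 2 → ℝ) (k : Fin 2) :
    act M x k = M k 0 * x 0 + M k 1 * x 1 := by
  simp only [act, Matrix.mulVecLin_apply, Matrix.mulVec, dotProduct, Fin.sum_univ_two,
    Matrix.map_apply]

/-- `M h` for the skew matrix `M` -/
def rot (B : Matrix (Fin 2) (Fin 2) ℤ) (z : Fin 2 → ℤ) : Fin 2 → ℤ :=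
  ![-(B 0 1 * z 0 + B 1 1 * z 1), B 0 0 * z 0 + B 0 1 * z 1]

/-- the discriminant -/
def disc (B : Matrix (Fin 2) (Fin 2) ℤ) : ℤ := B 0 1 ^ 2 - B 0 0 * B 1 1

/-- the isotropic vectors -/
noncomputable def iso (B : Matrix (Fin 2) (Fin 2) ℤ) (h : Fin 2 → ℤ) (σ : ℤ) : Fin 2 → ℝ :=
  (1 / 2 : ℝ) • (intVec h + ((σ : ℝ) / √(disc B : ℝ)) • intVec (rot B h))

theorem form_rot (hs : B 1 0 = B 0 1) (h : Fin 2 → ℤ) :
    form B (intVec h) (intVec (rot B h)) = 0 := by
  rw [form_two hs]
  simp only [intVec, rot, Matrix.cons_val_zero, Matrix.cons_val_one, Matrix.cons_val_fin_one]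
  push_cast
  ring

theorem form_rot_rot (hs : B 1 0 = B 0 1) (h : Fin 2 → ℤ) :
    form B (intVec (rot B h)) (intVec (rot B h)) =
      -((disc B : ℤ) : ℝ) * form B (intVec h) (intVec h) := by
  rw [form_two hs, form_two hs]
  simp only [intVec, rot, disc, Matrix.cons_val_zero, Matrix.cons_val_one,
    Matrix.cons_val_fin_one]
  push_cast
  ring

theorem symm_two (hyp : Hyperbolic B (intVec h)) : B 1 0 = B 0 1 := by
  have := hyp.symm.apply 0 1
  exact this

theorem disc_pos (hyp : Hyperbolic B (intVec h)) : 0 < disc B := by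
  have hs := symm_two hyp
  have h1 : form B (intVec (rot B h)) (intVec (rot B h)) < 0 := by
    refine hyp.neg _ (form_rot hs h) ?_
    intro h0
    have e0 : ((rot B h 0 : ℤ) : ℝ) = 0 := congrFun h0 0
    have e1 : ((rot B h 1 : ℤ) : ℝ) = 0 := congrFun h0 1
    have hp := hyp.pos
    rw [form_two hs] at hp
    simp only [intVec, rot, Matrix.cons_val_zero, Matrix.cons_val_one,
      Matrix.cons_val_fin_one] at e0 e1 hp
    push_cast at e0 e1
    have h3 : (B 0 0 : ℝ) * (h 0 * h 0) + B 0 1 * (h 0 * h 1 + h 1 * h 0) +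
        B 1 1 * (h 1 * h 1) = 0 := by
      linear_combination (h 0 : ℝ) * e1 - (h 1 : ℝ) * e0
    linarith
  rw [form_rot_rot hs] at h1
  have h2 := hyp.pos
  have h3 : (0 : ℝ) < (disc B : ℤ) := by nlinarith
  exact_mod_cast h3

/-- every vector is a combination of `h` and `M h` -/
theorem decomp (hs : B 1 0 = B 0 1) (h : Fin 2 → ℤ) (x : Fin 2 → ℝ) :
    (((disc B : ℤ) : ℝ) * form B (intVec h) (intVec h)) • x =
      (((disc B : ℤ) : ℝ) * form B (intVec h) x) • intVec h -
        form B (intVec (rot B h)) x • intVec (rot B h) := by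
  rw [form_two hs, form_two hs, form_two hs]
  ext k
  fin_cases k
  · simp only [intVec, rot, disc, Matrix.cons_val_zero, Matrix.cons_val_one,
      Matrix.cons_val_fin_one, Pi.smul_apply, Pi.sub_apply, smul_eq_mul, Fin.zero_eta]
    push_cast
    ring
  · simp only [intVec, rot, disc, Matrix.cons_val_zero, Matrix.cons_val_one,
      Matrix.cons_val_fin_one, Pi.smul_apply, Pi.sub_apply, smul_eq_mul, Fin.mk_one]
    push_cast
    ring

/-- the matrix `t + v M` -/
def pmat (B : Matrix (Fin 2) (Fin 2) ℤ) (t v : ℤ) : Matrix (Fin 2) (Fin 2) ℤ :=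
  !![t - v * B 0 1, -(v * B 1 1); v * B 0 0, t + v * B 0 1]

theorem det_pmat (t v : ℤ) : (pmat B t v).det = t ^ 2 - disc B * v ^ 2 := by
  rw [pmat, Matrix.det_fin_two_of, disc]
  ring

theorem pmat_isom (hs : B 1 0 = B 0 1) {t v : ℤ} (h1 : t ^ 2 - disc B * v ^ 2 = 1) :
    (pmat B t v).transpose * B * (pmat B t v) = B := by
  rw [disc] at h1
  ext k l
  fin_cases k <;> fin_cases l <;>
    simp [pmat, Matrix.mul_apply, Fin.sum_univ_two, hs]
  · linear_combination (B 0 0) * h1
  · linear_combination (B 0 1) * h1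
  · linear_combination (B 0 1) * h1
  · linear_combination (B 1 1) * h1

theorem act_iso (hyp : Hyperbolic B (intVec h)) {σ : ℤ} (hσ : σ * σ = 1) (t v : ℤ) :
    act (pmat B t v) (iso B h σ) =
      ((t : ℝ) + v * (σ * √(disc B : ℝ))) • iso B h σ := by
  have hD : (0 : ℝ) < ((disc B : ℤ) : ℝ) := by exact_mod_cast disc_pos hyp
  have hσ' : (σ : ℝ) * σ = 1 := by exact_mod_cast hσ
  obtain ⟨s, hs0, hs, hsq⟩ : ∃ s : ℝ, 0 < s ∧ √((disc B : ℤ) : ℝ) = s ∧
      s * s = ((disc B : ℤ) : ℝ) :=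
    ⟨_, Real.sqrt_pos.2 hD, rfl, Real.mul_self_sqrt hD.le⟩
  have hsq' : s * s = (B 0 1 : ℝ) ^ 2 - B 0 0 * B 1 1 := by
    rw [hsq, disc]; push_cast; ring
  have hs1 : s ≠ 0 := hs0.ne'
  ext k
  rw [act_two]
  simp only [iso, hs]
  fin_cases k
  · simp only [intVec, rot, pmat, Matrix.cons_val_zero, Matrix.cons_val_one,
      Matrix.cons_val_fin_one, Pi.smul_apply, Pi.add_apply, smul_eq_mul, Fin.zero_eta,
      Matrix.of_apply, Matrix.cons_val', Matrix.empty_val']
    push_cast
    field_simp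
    linear_combination (-((v : ℝ) * σ * h 0)) * hsq' +
      ((v : ℝ) * s * (B 0 1 * h 0 + B 1 1 * h 1)) * hσ'
  · simp only [intVec, rot, pmat, Matrix.cons_val_zero, Matrix.cons_val_one,
      Matrix.cons_val_fin_one, Pi.smul_apply, Pi.add_apply, smul_eq_mul, Fin.mk_one,
      Matrix.of_apply, Matrix.cons_val', Matrix.empty_val']
    push_cast
    field_simp
    linear_combination (-((v : ℝ) * σ * h 1)) * hsq' -
      ((v : ℝ) * s * (B 0 0 * h 0 + B 0 1 * h 1)) * hσ'

theorem act_pow {g : GL (Fin 2) ℤ} {x : Fin 2 → ℝ} {l : ℝ} (hg : act g.val x = l • x) (n : ℕ) :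
    act (g ^ n).val x = l ^ n • x := by
  induction n with
  | zero => rw [pow_zero, pow_zero, one_smul, Units.val_one, act_one]; rfl
  | succ n ih => rw [pow_succ', Units.val_mul, act_mul_apply, ih, map_smul, hg, smul_smul,
      pow_succ]

theorem iso_iso (hyp : Hyperbolic B (intVec h)) {σ : ℤ} (hσ : σ * σ = 1) :
    Iso B h (iso B h σ) (iso B h (-σ)) := by
  have hs := symm_two hyp
  have hD : (0 : ℝ) < ((disc B : ℤ) : ℝ) := by exact_mod_cast disc_pos hyp
  have hσ' : (σ : ℝ) * σ = 1 := by exact_mod_cast hσ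
  obtain ⟨s, hs0, hse, hsq⟩ : ∃ s : ℝ, 0 < s ∧ √((disc B : ℤ) : ℝ) = s ∧
      s * s = ((disc B : ℤ) : ℝ) :=
    ⟨_, Real.sqrt_pos.2 hD, rfl, Real.mul_self_sqrt hD.le⟩
  have hs1 : s ≠ 0 := hs0.ne'
  have hQ := hyp.pos
  have hhu := form_rot hs h
  have huh : form B (intVec (rot B h)) (intVec h) = 0 := by rw [hyp.comm, hhu]
  have huu := form_rot_rot hs h
  rw [← hsq] at huu
  refine ⟨?_, ?_, ?_, ?_, ?_, ?_⟩
  · rw [iso, iso, ← smul_add]
    ext k
    simp only [Pi.smul_apply, Pi.add_apply, smul_eq_mul]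
    push_cast
    ring
  · simp only [iso, hse, form_smul_left, form_smul_right, form_add_left, form_add_right, hhu, huh,
      huu]
    field_simp
    linear_combination (-form B (intVec h) (intVec h) * s) * hσ'
  · simp only [iso, hse, form_smul_left, form_smul_right, form_add_left, form_add_right, hhu, huh,
      huu]
    push_cast
    field_simp
    linear_combination (-form B (intVec h) (intVec h) * s) * hσ'
  · have h1 : form B (iso B h σ) (iso B h (-σ)) = form B (intVec h) (intVec h) / 2 := by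
      simp only [iso, hse, form_smul_left, form_smul_right, form_add_left, form_add_right, hhu,
        huh, huu]
      push_cast
      field_simp
      linear_combination (form B (intVec h) (intVec h) * s) * hσ'
    rw [h1]
    positivity
  · intro x
    have h1 := decomp hs h x
    rw [← hsq] at h1
    obtain ⟨Q, hQe⟩ : ∃ Q, Q = form B (intVec h) (intVec h) := ⟨_, rfl⟩
    obtain ⟨p, hp⟩ : ∃ p, p = form B (intVec h) x := ⟨_, rfl⟩
    obtain ⟨r, hr⟩ : ∃ r, r = form B (intVec (rot B h)) x := ⟨_, rfl⟩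
    rw [← hQe] at hQ h1
    rw [← hp, ← hr] at h1
    refine ⟨p / Q - σ * s * (r / (s * s * Q)), p / Q + σ * s * (r / (s * s * Q)), ?_⟩
    have h2 : x = (s * s * Q)⁻¹ • ((s * s * Q) • x) := by
      rw [smul_smul, inv_mul_cancel₀ (by positivity), one_smul]
    rw [h2, h1]
    simp only [iso, hse]
    ext k
    simp only [Pi.smul_apply, Pi.add_apply, Pi.sub_apply, smul_eq_mul]
    push_cast
    field_simp
    linear_combination (2 * r * intVec (rot B h) k) * hσ'
  · by_cases hsq' : IsSquare (disc B)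
    · left
      obtain ⟨m, hm⟩ := hsq'
      have hms : s = |(m : ℝ)| := by
        rw [← hse, hm]
        push_cast
        rw [Real.sqrt_mul_self_eq_abs]
      refine ⟨2 * s, by positivity, |m| • h + σ • rot B h, ?_⟩
      rw [iso, hse]
      ext k
      simp only [Pi.smul_apply, Pi.add_apply, smul_eq_mul, intVec]
      push_cast
      rw [← hms]
      field_simp
    · right
      intro d hd
      have : NeZero d := ⟨by omega⟩
      obtain ⟨t, v, htv, hv⟩ := Pell.exists_of_not_isSquare (disc_pos hyp) hsq'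
      have h1 : |t| ^ 2 - disc B * (σ * |v|) ^ 2 = 1 := by
        rw [sq_abs, mul_pow, sq_abs, pow_two σ, hσ, one_mul]
        exact htv
      obtain ⟨g, hg⟩ : ∃ g : GL (Fin 2) ℤ, g.val = pmat B |t| (σ * |v|) := by
        refine ⟨Matrix.GeneralLinearGroup.mk'' _ ?_, Matrix.GeneralLinearGroup.val_mk'' _ _⟩
        rw [det_pmat, h1]
        exact isUnit_one
      have hgi : g ∈ isoms B := by
        show g.val.transpose * B * g.val = B
        rw [hg]
        exact pmat_isom hs h1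
      obtain ⟨l, hl⟩ : ∃ l : ℝ, l = |(t : ℝ)| + |(v : ℝ)| * s := ⟨_, rfl⟩
      have ht1 : 1 ≤ |(t : ℝ)| := by
        have h2 : t ≠ 0 := by
          rintro rfl
          have h3 := disc_pos hyp
          have h4 := sq_nonneg v
          nlinarith
        have h3 : 1 ≤ |t| := Int.one_le_abs h2
        exact_mod_cast h3
      have hv1 : 1 ≤ |(v : ℝ)| := by
        have h3 : 1 ≤ |v| := Int.one_le_abs hv
        exact_mod_cast h3
      have hl1 : 1 < l := by
        rw [hl]
        nlinarith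
      have he1 : act g.val (iso B h σ) = l • iso B h σ := by
        rw [hg, act_iso hyp hσ, hse, hl]
        congr 1
        push_cast
        linear_combination (|(v : ℝ)| * s) * hσ'
      have he2 : act g.val (iso B h (-σ)) = l⁻¹ • iso B h (-σ) := by
        rw [hg, act_iso hyp (by rw [neg_mul_neg]; exact hσ), hse]
        congr 1
        refine eq_inv_of_mul_eq_one_left ?_
        rw [hl]
        have h2 : (|(t : ℝ)| ^ 2 - (s * s) * (σ * |(v : ℝ)|) ^ 2) = 1 := by
          rw [hsq]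
          exact_mod_cast h1
        push_cast
        linear_combination h2 + (-(|(v : ℝ)| * s * |(t : ℝ)|) - 0) * hσ'
      have hN : 0 < Nat.card (GL (Fin 2) (ZMod d)) := Nat.card_pos
      refine ⟨g ^ Nat.card (GL (Fin 2) (ZMod d)), (isoms B).pow_mem hgi _, ?_,
        l ^ Nat.card (GL (Fin 2) (ZMod d)), one_lt_pow₀ hl1 hN.ne', act_pow he1 _, ?_⟩
      · rw [cong, MonoidHom.mem_ker, map_pow, pow_card_eq_one']
      · rw [act_pow he2, inv_pow]

theorem exists_iso (hyp : Hyperbolic B (intVec h)) :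
    ∃ E₁ E₂, Iso B h E₁ E₂ ∧ Iso B h E₂ E₁ := by
  refine ⟨iso B h 1, iso B h (-1), iso_iso hyp (by norm_num), ?_⟩
  have := iso_iso hyp (σ := -1) (by norm_num)
  rwa [neg_neg] at this

end Pool.Agent.SCV
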