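import Pool.Agent.SCV.Face

/-!
# SCV/One : contractions to varieties with Picard number one
-/

set_option autoImplicit false

open Module Filter Topology

namespace Pool.Agent.SCV

open Pool.Agent.SYM.V3.Lat Pool.Agent.H93Cone Pool.Agent.SymCone Pool.Agent.H55.Cone

namespace Cls

variable {b : ℕ} {C : Cls b} {i : C.I} {m : ℕ}

theorem nef_zero (hC : C.Base) (hi : C.Projective i) : C.Nef i 0 := by
  obtain ⟨A, -, hA⟩ := hi
  show (0 : Vec b) ∈ closure (C.kahler i)
  have hlim : Tendsto (fun k : ℕ => (1 / ((k : ℝ) + 1)) • A) atTop (𝓝 ((0 : ℝ) • A)) :=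
    tendsto_one_div_add_atTop_nhds_zero_nat.smul_const _
  rw [zero_smul] at hlim
  exact mem_closure_of_tendsto hlim (Eventually.of_forall fun k =>
    hC.kahler_smul i A hA _ (by positivity))

/-- a nef class of positive square is positive on Kähler classes -/
theorem nef_big_pos (hC : C.Base) {a A : Vec b} (ha : C.Nef i a) (haa : 0 < C.q a a)
    (hA : A ∈ C.kahler i) : 0 < C.q a A := by
  have h1 : 0 ≤ C.q a A := by
    rw [hC.symm]
    exact nef_nonneg (fun A' hA' => (hC.kahler_pos i A hA A' hA').le) ha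
  refine lt_of_le_of_ne h1 (fun h0 => ?_)
  obtain ⟨x, y, hp⟩ := hC.per_exists i
  have hax : C.q a x = 0 := by
    have hcl : IsClosed {u : Vec b | C.q u x = 0} :=
      isClosed_eq (C.q.flip x).continuous_of_finiteDimensional continuous_const
    exact closure_minimal (fun u hu => (hC.kahler_type i x y hp u hu).1) hcl ha
  have hay : C.q a y = 0 := by
    have hcl : IsClosed {u : Vec b | C.q u y = 0} :=
      isClosed_eq (C.q.flip y).continuous_of_finiteDimensional continuous_const
    exact closure_minimal (fun u hu => (hC.kahler_type i x y hp u hu).2) hcl ha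
  have hne : a ≠ 0 := by
    intro h2
    rw [h2, map_zero] at haa
    exact lt_irrefl _ haa
  have := neg_of_orth hC hp hA hax hay h0.symm hne
  linarith

private theorem act_fin_one (g : Matrix (Fin 1) (Fin 1) ℤ) (x : Fin 1 → ℝ) :
    act g x = (g 0 0 : ℝ) • x := by
  ext k
  fin_cases k
  simp [act, Matrix.mulVec, dotProduct]

theorem domain_one (hC : C.Base) (hi : C.Projective i) {a : Vec b} {f : Fin 1 → Vec b}
    (hf : C.IsContraction i a f) {G : Subgroup (GL (Fin 1) ℤ)}
    (hG : C.IsAutomorphismGroup i f G) : HasDomain G (C.nefEff i f) := by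
  have hi' := hi
  obtain ⟨A, hAl, hA⟩ := hi
  have h0 := nef_zero hC hi'
  -- `a` is a multiple of `f 0`
  have haf : a ∈ Submodule.span ℝ (Set.range f) := by
    rw [hf.range]
    refine ⟨Submodule.subset_span hf.line, 1, ?_, ?_⟩
    · rw [one_smul, ← two_smul ℝ]
      exact nef_smul hC hf.nef two_pos
    · rw [one_smul, sub_self]
      exact h0
  obtain ⟨x₀, hx₀⟩ := (mem_span_iff f a).1 haf
  obtain ⟨r, hr⟩ : ∃ r, r = x₀ 0 := ⟨_, rfl⟩
  have hfa : ∀ x : Fin 1 → ℝ, comb f x = x 0 • f 0 := fun x => by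
    simp [comb]
  have har : r • f 0 = a := by rw [hr, ← hfa, hx₀]
  have hapos := nef_big_pos hC hf.nef hf.big hA
  have hr0 : r ≠ 0 := by
    rintro rfl
    rw [zero_smul] at har
    rw [← har, map_zero, LinearMap.zero_apply] at hapos
    exact lt_irrefl _ hapos
  have hx : ∀ x : Fin 1 → ℝ, comb f x = (x 0 / r) • a := fun x => by
    rw [hfa, ← har, smul_smul, div_mul_cancel₀ _ hr0]
  have haE : a ∈ C.effCone i := by
    exact hC.big i hi' A hA a hf.line hf.big hapos
  have hset : C.nefEff i f = {x | 0 ≤ x 0 / r} := by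
    ext x
    constructor
    · rintro ⟨h1, -⟩
      rw [hx] at h1
      have h2 : 0 ≤ C.q A ((x 0 / r) • a) :=
        nef_nonneg (fun A' hA' => (hC.kahler_pos i A hA A' hA').le) h1
      rw [map_smul, smul_eq_mul, hC.symm A a] at h2
      show 0 ≤ x 0 / r
      by_contra h3
      push Not at h3
      nlinarith
    · intro h1
      have h1' : 0 ≤ x 0 / r := h1
      refine ⟨?_, ?_⟩
      · rw [hx]
        rcases h1'.eq_or_lt with h2 | h2
        · rw [← h2, zero_smul]
          exact h0
        · exact nef_smul hC hf.nef h2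
      · rw [hx]
        exact PointedCone.smul_mem (C.effCone i) h1' haE
  have hGt : ∀ g ∈ G, g = 1 := by
    intro g hg
    have h1 : C.Nef i (comb f x₀) := by
      rw [hx₀]
      exact hf.nef
    have h2 := hG.nef g hg x₀ h1
    rw [act_fin_one, hx, Pi.smul_apply, ← hr, smul_eq_mul, mul_div_assoc, div_self hr0,
      mul_one] at h2
    have h3 : 0 ≤ C.q A ((g.val 0 0 : ℝ) • a) :=
      nef_nonneg (fun A' hA' => (hC.kahler_pos i A hA A' hA').le) h2
    rw [map_smul, smul_eq_mul, hC.symm A a] at h3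
    have h4 : (0 : ℝ) ≤ (g.val 0 0 : ℤ) := by
      by_contra h5
      push Not at h5
      nlinarith
    have h5 : 0 ≤ g.val 0 0 := by exact_mod_cast h4
    have h6 : IsUnit g.val.det := (Matrix.isUnit_iff_isUnit_det _).1 g.isUnit
    rw [Matrix.det_fin_one] at h6
    have h7 : g.val 0 0 = 1 := by
      rcases Int.isUnit_iff.1 h6 with h8 | h8
      · exact h8
      · omega
    apply Units.ext
    ext k l
    fin_cases k
    fin_cases l
    exact h7
  -- the domain is the ray
  obtain ⟨ε, hε, hεr⟩ : ∃ ε : ℚ, (ε = 1 ∨ ε = -1) ∧ (0 : ℝ) < ε / r := by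
    rcases lt_or_gt_of_ne hr0 with h1 | h1
    · exact ⟨-1, Or.inr rfl, by push_cast; exact div_pos_of_neg_of_neg (by norm_num) h1⟩
    · exact ⟨1, Or.inl rfl, by push_cast; positivity⟩
  have hrat : ratCone {fun _ : Fin 1 => ε} = C.nefEff i f := by
    rw [hset]
    ext x
    have hcone : ratCone {fun _ : Fin 1 => ε} =
        (PointedCone.hull ℝ {ratVec (fun _ : Fin 1 => ε)} : Set (Fin 1 → ℝ)) := by
      rw [ratCone, Finset.coe_singleton, Set.image_singleton]
    rw [hcone]
    constructor
    · intro h1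
      obtain ⟨c, hc⟩ := Submodule.mem_span_singleton.1 h1
      show 0 ≤ x 0 / r
      have h2 : x 0 = (c : ℝ) * ε := by
        rw [← hc]
        rfl
      rw [h2, mul_div_assoc]
      exact mul_nonneg c.2 hεr.le
    · intro h1
      have h1' : 0 ≤ x 0 / r := h1
      have hc : 0 ≤ x 0 * ε := by
        have h2 : x 0 * ε = (x 0 / r) * (ε / r) * (r * r) := by
          field_simp
        rw [h2]
        exact mul_nonneg (mul_nonneg h1' hεr.le) (mul_self_nonneg r)
      refine Submodule.mem_span_singleton.2 ⟨⟨x 0 * ε, hc⟩, ?_⟩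
      ext k
      fin_cases k
      show x 0 * ε * ε = x 0
      have h3 : (ε : ℝ) * ε = 1 := by
        rcases hε with h4 | h4 <;> rw [h4] <;> norm_num
      rw [mul_assoc, h3, mul_one]
  refine ⟨{fun _ => ε}, hrat.le, ?_, fun g hg hg1 => absurd (hGt g hg) hg1⟩
  rw [← hrat]
  ext x
  constructor
  · intro h1
    refine Set.mem_biUnion G.one_mem ⟨x, h1, ?_⟩
    rw [Units.val_one, Pool.Agent.H93Cone.act_one]
    rfl
  · intro h1
    obtain ⟨g, hg, y, hy, rfl⟩ := Set.mem_iUnion₂.1 h1
    rw [hGt g hg, Units.val_one, Pool.Agent.H93Cone.act_one]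
    exact hy

end Cls

end Pool.Agent.SCV
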