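import Pool.Agent.SCV.Iso2
import Pool.Agent.SymCone.Cpt

/-!
# SCV/Plane : the nef cone of a member with Picard number two
-/

set_option autoImplicit false

open Filter Topology

namespace Pool.Agent.SCV

open Pool.Agent.H93Cone Pool.Agent.SymCone

/-- The Kähler cone `K` and the group `G` of the automorphisms in the plane `NS(X)_ℝ`. -/
structure Plane (B : Matrix (Fin 2) (Fin 2) ℤ) (h : Fin 2 → ℤ) (K : Set (Fin 2 → ℝ))
    (G : Subgroup ((Fin 2 → ℝ) ≃ₗ[ℝ] (Fin 2 → ℝ))) : Prop where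
  hyp : Hyperbolic B (intVec h)
  mem : intVec h ∈ K
  pos : ∀ x ∈ K, ∀ y ∈ K, 0 < form B x y
  add : ∀ x ∈ K, ∀ y ∈ closure K, x + y ∈ K
  smul : ∀ x ∈ K, ∀ c : ℝ, 0 < c → c • x ∈ K
  opn : IsOpen K
  curve : ∀ x ∈ closure K, 0 < form B x x → x ∉ K →
    ∃ z : Fin 2 → ℤ, form B (intVec z) x = 0 ∧ ∀ y ∈ K, 0 < form B (intVec z) y
  isom : ∀ T ∈ G, ∀ x y, form B (T x) (T y) = form B x y
  map : ∀ T ∈ G, ∀ x ∈ K, T x ∈ K
  int : ∀ T ∈ G, ∀ z : Fin 2 → ℤ, ∃ z' : Fin 2 → ℤ, T (intVec z) = intVec z'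
  pol : ∃ d : ℕ, 1 ≤ d ∧ ∃ F : Set (Fin 2 → ℝ), F.Finite ∧ ∀ g ∈ isoms B, g ∈ cong d →
    act g.val (intVec h) ∈ K → ∃ x ∈ F, ∃ T ∈ G, T x = act g.val (intVec h)

/-- The edge of the cone `K` at the side of `E₁` is rational. -/
def Side (K : Set (Fin 2 → ℝ)) (E₁ E₂ : Fin 2 → ℝ) : Prop :=
  ∃ z : Fin 2 → ℤ, intVec z ∈ closure K ∧ ∃ y₁ y₂ : ℝ, 0 ≤ y₂ ∧ y₂ < y₁ ∧
    intVec z = y₁ • E₁ + y₂ • E₂ ∧ ∀ x₁ x₂ : ℝ, x₁ • E₁ + x₂ • E₂ ∈ K → x₁ * y₂ ≤ x₂ * y₁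

variable {B : Matrix (Fin 2) (Fin 2) ℤ} {h : Fin 2 → ℤ} {K : Set (Fin 2 → ℝ)}
  {G : Subgroup ((Fin 2 → ℝ) ≃ₗ[ℝ] (Fin 2 → ℝ))} {E₁ E₂ : Fin 2 → ℝ}

theorem Iso.form_eq (hE : Iso B h E₁ E₂) (hyp : Hyperbolic B (intVec h)) (x₁ x₂ y₁ y₂ : ℝ) :
    form B (x₁ • E₁ + x₂ • E₂) (y₁ • E₁ + y₂ • E₂) = (x₁ * y₂ + x₂ * y₁) * form B E₁ E₂ := by
  simp only [form_add_left, form_add_right, form_smul_left, form_smul_right, hE.e1, hE.e2,
    hyp.comm E₂ E₁]
  ring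

theorem Plane.coef_pos (hP : Plane B h K G) (hE : Iso B h E₁ E₂) {x₁ x₂ : ℝ}
    (hx : x₁ • E₁ + x₂ • E₂ ∈ K) : 0 < x₁ ∧ 0 < x₂ := by
  have h1 := hP.pos _ hx _ hx
  have h2 := hP.pos _ hx _ hP.mem
  have h3 : intVec h = (1 : ℝ) • E₁ + (1 : ℝ) • E₂ := by rw [one_smul, one_smul, hE.sum]
  rw [hE.form_eq hP.hyp] at h1
  rw [h3, hE.form_eq hP.hyp] at h2
  have h4 := hE.e12
  have h5 : 0 < x₁ * x₂ := by
    by_contra h0
    push Not at h0
    nlinarith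
  have h6 : 0 < x₁ + x₂ := by
    by_contra h0
    push Not at h0
    nlinarith
  constructor
  · by_contra h0
    push Not at h0
    nlinarith
  · by_contra h0
    push Not at h0
    nlinarith

theorem Plane.smul_closure (hP : Plane B h K G) {x : Fin 2 → ℝ} (hx : x ∈ closure K) {c : ℝ}
    (hc : 0 < c) : c • x ∈ closure K := by
  have h1 : (fun y : Fin 2 → ℝ => c • y) '' closure K ⊆ closure ((fun y => c • y) '' K) :=
    image_closure_subset_closure_image (continuous_const_smul c)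
  refine closure_mono ?_ (h1 ⟨x, hx, rfl⟩)
  rintro _ ⟨y, hy, rfl⟩
  exact hP.smul y hy c hc

/-- a rational or non-nef isotropic line -/
theorem Plane.side_of_rat (hP : Plane B h K G) (hE : Iso B h E₁ E₂) (hn : E₁ ∈ closure K)
    (hr : ∃ r : ℝ, 0 < r ∧ ∃ z : Fin 2 → ℤ, intVec z = r • E₁) : Side K E₁ E₂ := by
  obtain ⟨r, hr, z, hz⟩ := hr
  refine ⟨z, hz ▸ hP.smul_closure hn hr, r, 0, le_refl _, hr, by rw [hz, zero_smul, add_zero], ?_⟩
  intro x₁ x₂ hx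
  have := hP.coef_pos hE hx
  rw [mul_zero]
  exact mul_nonneg this.2.le hr.le

theorem Plane.side_of_edge (hP : Plane B h K G) (hE : Iso B h E₁ E₂) (hn : E₁ ∉ closure K) :
    Side K E₁ E₂ := by
  have hs := symm_two hP.hyp
  obtain ⟨S, hS⟩ : ∃ S : Set ℝ, S = {T | 0 ≤ T ∧ intVec h + T • E₁ ∈ closure K} := ⟨_, rfl⟩
  have h0 : (0 : ℝ) ∈ S := by
    rw [hS]
    exact ⟨le_refl _, by rw [zero_smul, add_zero]; exact subset_closure hP.mem⟩
  have hcl : IsClosed S := by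
    rw [hS]
    refine (isClosed_le continuous_const continuous_id).inter ?_
    exact isClosed_closure.preimage (by fun_prop)
  have hbd : BddAbove S := by
    obtain ⟨ε, hε, hball⟩ := Metric.isOpen_iff.1 isClosed_closure.isOpen_compl E₁ hn
    refine ⟨(‖(intVec h : Fin 2 → ℝ)‖ + 1) / ε, ?_⟩
    rw [hS]
    rintro T ⟨hT0, hT⟩
    by_contra hcon
    push Not at hcon
    have hp : 0 < (‖(intVec h : Fin 2 → ℝ)‖ + 1) / ε := by positivity
    have hTp : 0 < T := hp.trans hcon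
    have h1 : T⁻¹ • intVec h + E₁ ∈ closure K := by
      have h2 := hP.smul_closure hT (inv_pos.2 hTp)
      rwa [smul_add, smul_smul, inv_mul_cancel₀ hTp.ne', one_smul] at h2
    refine hball ?_ h1
    rw [Metric.mem_ball, dist_eq_norm, add_sub_cancel_right, norm_smul, norm_inv,
      Real.norm_of_nonneg hT0, inv_mul_lt_iff₀ hTp]
    rw [div_lt_iff₀ hε] at hcon
    linarith
  obtain ⟨T, hT⟩ : ∃ T, T = sSup S := ⟨_, rfl⟩
  have hTS : T ∈ S := hT ▸ hcl.csSup_mem ⟨0, h0⟩ hbd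
  have hle : ∀ t ∈ S, t ≤ T := fun t ht => hT ▸ le_csSup hbd ht
  -- if `h + t E₁ ∈ K` then `t < T`
  have hlt : ∀ t : ℝ, 0 ≤ t → intVec h + t • E₁ ∈ K → t < T := by
    intro t ht0 ht
    obtain ⟨ε, hε, hball⟩ := Metric.isOpen_iff.1 hP.opn _ ht
    have hδ : 0 < ε / (2 * (‖E₁‖ + 1)) := by positivity
    have h1 : t + ε / (2 * (‖E₁‖ + 1)) ∈ S := by
      rw [hS]
      refine ⟨by positivity, subset_closure (hball ?_)⟩
      rw [Metric.mem_ball, dist_eq_norm, add_smul, ← add_assoc, add_sub_cancel_left, norm_smul,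
        Real.norm_of_nonneg hδ.le]
      rw [div_mul_eq_mul_div, div_lt_iff₀ (by positivity)]
      have := norm_nonneg E₁
      nlinarith
    have h2 := hle _ h1
    linarith
  have hT0 : 0 < T := hlt 0 (le_refl _) (by rw [zero_smul, add_zero]; exact hP.mem)
  have hTS' := hTS
  rw [hS] at hTS'
  obtain ⟨-, hv⟩ := hTS'
  have hvK : intVec h + T • E₁ ∉ K := fun h1 => lt_irrefl _ (hlt T hT0.le h1)
  obtain ⟨v, hve⟩ : ∃ v, v = intVec h + T • E₁ := ⟨_, rfl⟩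
  have hv2 : v = (1 + T) • E₁ + (1 : ℝ) • E₂ := by
    rw [hve, hE.sum, add_smul, one_smul, one_smul]
    abel
  rw [← hve] at hv hvK
  have hvv : 0 < form B v v := by
    rw [hv2, hE.form_eq hP.hyp]
    have := hE.e12
    positivity
  obtain ⟨c, hc0, hcpos⟩ := hP.curve v hv hvv hvK
  -- `v` is proportional to the integral vector `M c`
  obtain ⟨n0, hn0⟩ : ∃ n : ℤ, n = B 0 0 * c 0 + B 0 1 * c 1 := ⟨_, rfl⟩
  obtain ⟨n1, hn1⟩ : ∃ n : ℤ, n = B 0 1 * c 0 + B 1 1 * c 1 := ⟨_, rfl⟩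
  have hform : ∀ x : Fin 2 → ℝ, form B (intVec c) x = n0 * x 0 + n1 * x 1 := by
    intro x
    rw [form_two hs, hn0, hn1]
    simp only [intVec]
    push_cast
    ring
  have hN : (0 : ℝ) < (n0 : ℝ) ^ 2 + (n1 : ℝ) ^ 2 := by
    have h1 := hcpos _ hP.mem
    rw [hform] at h1
    by_contra h2
    push Not at h2
    have h3 : (n0 : ℝ) = 0 := by nlinarith [sq_nonneg (n0 : ℝ), sq_nonneg (n1 : ℝ)]
    have h4 : (n1 : ℝ) = 0 := by nlinarith [sq_nonneg (n0 : ℝ), sq_nonneg (n1 : ℝ)]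
    rw [h3, h4] at h1
    linarith
  obtain ⟨r, hr⟩ : ∃ r : ℝ, r = (n0 * v 1 - n1 * v 0) / ((n0 : ℝ) ^ 2 + (n1 : ℝ) ^ 2) := ⟨_, rfl⟩
  rw [hform] at hc0
  have hvr : v = r • intVec ![-n1, n0] := by
    ext k
    rw [hr]
    fin_cases k
    · simp only [intVec, Fin.zero_eta, Pi.smul_apply, smul_eq_mul, Matrix.cons_val_zero]
      push_cast
      field_simp
      linear_combination (n0 : ℝ) * hc0
    · simp only [intVec, Fin.mk_one, Pi.smul_apply, smul_eq_mul, Matrix.cons_val_one,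
        Matrix.cons_val_fin_one]
      field_simp
      linear_combination (n1 : ℝ) * hc0
  have hv0 : v ≠ 0 := by
    intro h1
    rw [h1, form_zero_left] at hvv
    exact lt_irrefl _ hvv
  have hr0 : r ≠ 0 := by
    intro h1
    rw [h1, zero_smul] at hvr
    exact hv0 hvr
  obtain ⟨w, r', hr', hvw⟩ : ∃ (w : Fin 2 → ℤ) (r' : ℝ), 0 < r' ∧ intVec w = r' • v := by
    rcases lt_or_gt_of_ne hr0 with h1 | h1
    · refine ⟨-![-n1, n0], (-r)⁻¹, inv_pos.2 (by linarith), ?_⟩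
      have h2 : (intVec (-![-n1, n0]) : Fin 2 → ℝ) = -intVec ![-n1, n0] := by
        ext k
        simp [intVec]
      rw [h2, hvr, smul_smul, inv_neg, neg_mul, inv_mul_cancel₀ hr0, neg_smul, one_smul]
    · refine ⟨![-n1, n0], r⁻¹, inv_pos.2 h1, ?_⟩
      rw [hvr, smul_smul, inv_mul_cancel₀ hr0, one_smul]
  refine ⟨w, hvw ▸ hP.smul_closure hv hr', r' * (1 + T), r', hr'.le, by nlinarith, ?_, ?_⟩
  · rw [hvw, hv2, smul_add, smul_smul, one_smul]
  · intro x₁ x₂ hx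
    have h1 := hcpos _ hx
    have h2 := hcpos _ hP.mem
    have h3 : form B (intVec c) v = 0 := by rw [hform]; exact hc0
    rw [hv2, form_add_right, form_smul_right, form_smul_right] at h3
    rw [form_add_right, form_smul_right, form_smul_right] at h1
    rw [hE.sum, form_add_right] at h2
    have h4 : form B (intVec c) E₁ < 0 := by nlinarith
    have h5 : form B (intVec c) E₂ = -(1 + T) * form B (intVec c) E₁ := by linarith
    rw [h5] at h1
    have h6 : 0 < form B (intVec c) E₁ * (x₁ - (1 + T) * x₂) := by linarith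
    have h7 : x₁ - (1 + T) * x₂ < 0 := by
      by_contra h8
      push Not at h8
      nlinarith
    nlinarith

theorem Plane.image (hP : Plane B h K G) (hE : Iso B h E₁ E₂)
    {T : (Fin 2 → ℝ) ≃ₗ[ℝ] (Fin 2 → ℝ)} (hT : T ∈ G) :
    (∃ c : ℝ, 0 < c ∧ T E₁ = c • E₁) ∨ ∃ c : ℝ, 0 < c ∧ T E₁ = c • E₂ := by
  obtain ⟨x₁, x₂, hx⟩ := hE.span (T E₁)
  obtain ⟨y₁, y₂, hy⟩ := hE.span (T (intVec h))
  have hK := hP.map T hT _ hP.mem
  rw [hy] at hK
  have hy0 := hP.coef_pos hE hK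
  have h1 := hP.isom T hT E₁ E₁
  have h2 := hP.isom T hT E₁ (intVec h)
  rw [hx, hE.form_eq hP.hyp, hE.e1] at h1
  rw [hx, hy, hE.form_eq hP.hyp, hE.sum, form_add_right, hE.e1, zero_add] at h2
  have h4 := hE.e12
  have h5 : x₁ * y₂ + x₂ * y₁ = 1 := by
    have := mul_right_cancel₀ h4.ne' (h2.trans (one_mul _).symm)
    exact this
  have h6 : x₁ * x₂ = 0 := by
    rcases mul_eq_zero.1 h1 with h7 | h7
    · linarith
    · exact absurd h7 h4.ne'
  rcases mul_eq_zero.1 h6 with h7 | h7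
  · right
    refine ⟨x₂, ?_, by rw [hx, h7, zero_smul, zero_add]⟩
    rw [h7] at h5
    by_contra h8
    push Not at h8
    nlinarith
  · left
    refine ⟨x₁, ?_, by rw [hx, h7, zero_smul, add_zero]⟩
    rw [h7] at h5
    by_contra h8
    push Not at h8
    nlinarith

/-- an infinite order automorphism, if an irrational isotropic line is nef -/
theorem Plane.trans (hP : Plane B h K G) (hE : Iso B h E₁ E₂) (hn : E₁ ∈ closure K)
    (hg : ∀ d : ℕ, 1 ≤ d → ∃ g ∈ isoms B, g ∈ cong d ∧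
      ∃ l : ℝ, 1 < l ∧ act g.val E₁ = l • E₁ ∧ act g.val E₂ = l⁻¹ • E₂) :
    ∃ T ∈ G, ∃ c : ℝ, 1 < c ∧ T E₁ = c • E₁ ∧ T E₂ = c⁻¹ • E₂ := by
  obtain ⟨d, hd, F, hF, hpol⟩ := hP.pol
  obtain ⟨g, hgi, hgd, l, hl, hg1, hg2⟩ := hg d hd
  have hact : ∀ n : ℕ, act (g ^ n).val (intVec h) = l ^ n • E₁ + (l⁻¹) ^ n • E₂ := by
    intro n
    rw [hE.sum, map_add, act_pow hg1, act_pow hg2]
  have hl0 : 0 < l := by linarith
  have hK : ∀ n : ℕ, act (g ^ (n + 1)).val (intVec h) ∈ K := by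
    intro n
    have h1 : 1 < l ^ (n + 1) := one_lt_pow₀ hl (by omega)
    have h2 : (l⁻¹) ^ (n + 1) < 1 := pow_lt_one₀ (by positivity) (inv_lt_one_of_one_lt₀ hl)
      (by omega)
    have h3 : act (g ^ (n + 1)).val (intVec h) =
        (l⁻¹) ^ (n + 1) • intVec h + (l ^ (n + 1) - (l⁻¹) ^ (n + 1)) • E₁ := by
      rw [hact, hE.sum, smul_add, sub_smul]
      abel
    rw [h3]
    exact hP.add _ (hP.smul _ hP.mem _ (by positivity)) _
      (hP.smul_closure hn (by linarith))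
  choose x hxF T hTG hTx using fun n : ℕ =>
    hpol (g ^ (n + 1)) ((isoms B).pow_mem hgi _) ((cong d).pow_mem hgd _) (hK n)
  have : Finite F := hF
  obtain ⟨n, m, hnm, hfe⟩ := Finite.exists_ne_map_eq_of_infinite
    (fun n : ℕ => ((⟨x n, hxF n⟩ : F), (∃ c : ℝ, 0 < c ∧ (T n)⁻¹ E₁ = c • E₁ : Prop)))
  have hfe1 : x n = x m := congrArg Subtype.val (congrArg Prod.fst hfe)
  have hfe2 : (∃ c : ℝ, 0 < c ∧ (T n)⁻¹ E₁ = c • E₁) = ∃ c : ℝ, 0 < c ∧ (T m)⁻¹ E₁ = c • E₁ :=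
    congrArg Prod.snd hfe
  obtain ⟨R, hR⟩ : ∃ R, R = T m * (T n)⁻¹ := ⟨_, rfl⟩
  have hRG : R ∈ G := hR ▸ G.mul_mem (hTG m) (G.inv_mem (hTG n))
  have hinv : ∀ (k : ℕ) (v w : Fin 2 → ℝ), (T k)⁻¹ v = w → T k w = v := by
    intro k v w hw
    rw [← hw]
    exact (T k).apply_symm_apply v
  obtain ⟨γ, hγ, hRE⟩ : ∃ γ : ℝ, 0 < γ ∧ R E₁ = γ • E₁ := by
    by_cases hc : ∃ c : ℝ, 0 < c ∧ (T n)⁻¹ E₁ = c • E₁
    · have hc' := hc
      rw [hfe2] at hc'
      obtain ⟨c, hc0, hce⟩ := hc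
      obtain ⟨c', hc0', hce'⟩ := hc'
      have h1 := hinv m _ _ hce'
      rw [map_smul] at h1
      have h2 : T m E₁ = c'⁻¹ • E₁ := (eq_inv_smul_iff₀ hc0'.ne').2 h1
      refine ⟨c * c'⁻¹, by positivity, ?_⟩
      have h3 : R E₁ = T m ((T n)⁻¹ E₁) := by rw [hR]; rfl
      rw [h3, hce, map_smul, h2, smul_smul]
    · have hc' := hc
      rw [hfe2] at hc'
      obtain ⟨c, hc0, hce⟩ := (hP.image hE (G.inv_mem (hTG n))).resolve_left hc
      obtain ⟨c', hc0', hce'⟩ := (hP.image hE (G.inv_mem (hTG m))).resolve_left hc'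
      have h1 := hinv m _ _ hce'
      rw [map_smul] at h1
      have h2 : T m E₂ = c'⁻¹ • E₁ := (eq_inv_smul_iff₀ hc0'.ne').2 h1
      refine ⟨c * c'⁻¹, by positivity, ?_⟩
      have h3 : R E₁ = T m ((T n)⁻¹ E₁) := by rw [hR]; rfl
      rw [h3, hce, map_smul, h2, smul_smul]
  have h4 := hE.e12
  have hRE2 : R E₂ = γ⁻¹ • E₂ := by
    obtain ⟨x₁, x₂, hx⟩ := hE.span (R E₂)
    have h1 := hP.isom R hRG E₂ E₂
    have h2 := hP.isom R hRG E₁ E₂
    have hRE' : R E₁ = γ • E₁ + (0 : ℝ) • E₂ := by rw [hRE, zero_smul, add_zero]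
    rw [hx, hE.form_eq hP.hyp, hE.e2] at h1
    rw [hRE', hx, hE.form_eq hP.hyp] at h2
    have h5 : γ * x₂ = 1 := by
      have := mul_right_cancel₀ h4.ne' (h2.trans (one_mul _).symm)
      linarith
    have h6 : x₁ * x₂ = 0 := by
      rcases mul_eq_zero.1 h1 with h7 | h7
      · linarith
      · exact absurd h7 h4.ne'
    have h7 : x₂ = γ⁻¹ := eq_inv_of_mul_eq_one_right h5
    have h8 : x₁ = 0 := by
      rcases mul_eq_zero.1 h6 with h9 | h9
      · exact h9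
      · rw [h9, mul_zero] at h5
        exact absurd h5 zero_ne_one
    rw [hx, h8, h7, zero_smul, zero_add]
  have hRh : R (act (g ^ (n + 1)).val (intVec h)) = act (g ^ (m + 1)).val (intVec h) := by
    rw [← hTx n, ← hTx m, hR, hfe1]
    show T m ((T n)⁻¹ (T n (x m))) = T m (x m)
    congr 1
    exact (T n).symm_apply_apply _
  have hγl : γ * l ^ (n + 1) = l ^ (m + 1) := by
    rw [hact, hact, map_add, map_smul, map_smul, hRE, hRE2, smul_smul, smul_smul] at hRh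
    have h5 := congrArg (fun v => form B v E₂) hRh
    simp only [form_add_left, form_smul_left, hE.e2] at h5
    have h6 : (l ^ (n + 1) * γ - l ^ (m + 1)) * form B E₁ E₂ = 0 := by linarith
    rcases mul_eq_zero.1 h6 with h7 | h7
    · linarith
    · exact absurd h7 h4.ne'
  have hγ1 : γ ≠ 1 := by
    rintro rfl
    rw [one_mul] at hγl
    have := pow_right_injective₀ hl0 hl.ne' hγl
    omega
  rcases lt_or_gt_of_ne hγ1 with h5 | h5
  · refine ⟨R⁻¹, G.inv_mem hRG, γ⁻¹, (one_lt_inv₀ hγ).2 h5, ?_, ?_⟩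
    · show R.symm E₁ = _
      rw [LinearEquiv.symm_apply_eq, map_smul, hRE, smul_smul, inv_mul_cancel₀ hγ.ne', one_smul]
    · show R.symm E₂ = _
      rw [LinearEquiv.symm_apply_eq, map_smul, hRE2, smul_smul, inv_inv, mul_inv_cancel₀ hγ.ne',
        one_smul]
  · exact ⟨R, hRG, γ, h5, hRE, hRE2⟩

theorem zpow_eig {T : (Fin 2 → ℝ) ≃ₗ[ℝ] (Fin 2 → ℝ)} {E : Fin 2 → ℝ} {c : ℝ} (hc : c ≠ 0)
    (hT : T E = c • E) (n : ℤ) : (T ^ n) E = c ^ n • E := by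
  have hT' : T⁻¹ E = c⁻¹ • E := by
    show T.symm E = _
    rw [LinearEquiv.symm_apply_eq, map_smul, hT, smul_smul, inv_mul_cancel₀ hc, one_smul]
  induction n using Int.induction_on with
  | zero => rw [zpow_zero, zpow_zero, one_smul]; rfl
  | succ n ih =>
    rw [zpow_add_one, zpow_add_one₀ hc]
    show (T ^ (n : ℤ)) (T E) = _
    rw [hT, map_smul, ih, smul_smul, mul_comm]
  | pred n ih =>
    rw [zpow_sub_one, zpow_sub_one₀ hc]
    show (T ^ (-(n : ℤ))) (T⁻¹ E) = _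
    rw [hT', map_smul, ih, smul_smul, mul_comm]

/-- The translates of a rational polyhedral cone cover the Kähler cone. -/
def Covered (K : Set (Fin 2 → ℝ)) (G : Subgroup ((Fin 2 → ℝ) ≃ₗ[ℝ] (Fin 2 → ℝ))) : Prop :=
  ∃ z : Fin 2 → (Fin 2 → ℤ), (∀ j, intVec (z j) ∈ closure K) ∧
    ∀ x ∈ K, ∃ T ∈ G, ∃ c : Fin 2 → ℝ, (∀ j, 0 ≤ c j) ∧ x = T (∑ j, c j • intVec (z j))

theorem Plane.covered_of_trans (hP : Plane B h K G) (hE : Iso B h E₁ E₂)
    (hT : ∃ T ∈ G, ∃ c : ℝ, 1 < c ∧ T E₁ = c • E₁ ∧ T E₂ = c⁻¹ • E₂) : Covered K G := by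
  obtain ⟨T, hT, c, hc, h1, h2⟩ := hT
  obtain ⟨z', hz'⟩ := hP.int T hT h
  have hc0 : 0 < c := by linarith
  refine ⟨![h, z'], ?_, ?_⟩
  · intro j
    fin_cases j
    · exact subset_closure hP.mem
    · show intVec z' ∈ closure K
      rw [← hz']
      exact subset_closure (hP.map T hT _ hP.mem)
  · intro x hx
    obtain ⟨x₁, x₂, rfl⟩ := hE.span x
    obtain ⟨hx1, hx2⟩ := hP.coef_pos hE hx
    obtain ⟨n, hn1, hn2⟩ := exists_mem_Ico_zpow (div_pos hx1 hx2) (show (1 : ℝ) < c ^ 2 by nlinarith)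
    have hcn : 0 < c ^ n := by positivity
    obtain ⟨e, he⟩ : ∃ e, e = c ^ n := ⟨_, rfl⟩
    have e1 : (c ^ 2) ^ n = e ^ 2 := by
      rw [he, ← zpow_natCast (c ^ n) 2, ← zpow_mul, ← zpow_natCast c 2, ← zpow_mul, mul_comm]
    have e2 : (c ^ 2) ^ (n + 1) = e ^ 2 * c ^ 2 := by
      rw [zpow_add_one₀ (by positivity), e1]
    rw [← he] at hcn
    rw [e1, le_div_iff₀ hx2] at hn1
    rw [e2, div_lt_iff₀ hx2] at hn2
    -- `w = T ^ (- n) x`
    have hcc : 0 < c ^ 2 - 1 := by nlinarith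
    obtain ⟨α, hα⟩ : ∃ α, α = (c ^ 2 * (e * x₂) - x₁ / e) / (c ^ 2 - 1) := ⟨_, rfl⟩
    obtain ⟨β, hβ⟩ : ∃ β, β = c * (x₁ / e - e * x₂) / (c ^ 2 - 1) := ⟨_, rfl⟩
    have hcc' := hcc.ne'
    have e3 : x₁ = α * e + β * (c * e) := by
      rw [hα, hβ]
      field_simp
      ring
    have e4 : x₂ = α * e⁻¹ + β * (c⁻¹ * e⁻¹) := by
      rw [hα, hβ]
      field_simp
      ring
    refine ⟨T ^ n, G.zpow_mem hT n, ![α, β], ?_, ?_⟩
    · intro j
      fin_cases j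
      · show 0 ≤ α
        rw [hα]
        refine div_nonneg ?_ hcc.le
        rw [sub_nonneg, div_le_iff₀ hcn]
        nlinarith
      · show 0 ≤ β
        rw [hβ]
        refine div_nonneg (mul_nonneg hc0.le ?_) hcc.le
        rw [sub_nonneg, le_div_iff₀ hcn]
        nlinarith
    · rw [Fin.sum_univ_two]
      show x₁ • E₁ + x₂ • E₂ = (T ^ n) (α • intVec h + β • intVec z')
      rw [← hz', hE.sum, map_add T, h1, h2]
      simp only [map_add, map_smul, zpow_eig hc0.ne' h1, zpow_eig (inv_ne_zero hc0.ne') h2,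
        inv_zpow, ← he]
      rw [e3, e4]
      module

theorem covered_of_sides (hE : Iso B h E₁ E₂) (hyp : Hyperbolic B (intVec h))
    (h1 : Side K E₁ E₂) (h2 : Side K E₂ E₁) : Covered K G := by
  obtain ⟨z, hz, y₁, y₂, hy0, hy, hze, hK1⟩ := h1
  obtain ⟨w, hw, u₁, u₂, hu0, hu, hwe, hK2⟩ := h2
  refine ⟨![z, w], ?_, ?_⟩
  · intro j
    fin_cases j
    · exact hz
    · exact hw
  · intro x hx
    obtain ⟨x₁, x₂, rfl⟩ := hE.span x
    have h3 := hK1 x₁ x₂ hx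
    have h4 := hK2 x₂ x₁ (by rw [add_comm]; exact hx)
    have hdet : 0 < y₁ * u₁ - y₂ * u₂ := by nlinarith
    have hdet' := hdet.ne'
    obtain ⟨α, hα⟩ : ∃ α, α = (x₁ * u₁ - x₂ * u₂) / (y₁ * u₁ - y₂ * u₂) := ⟨_, rfl⟩
    obtain ⟨β, hβ⟩ : ∃ β, β = (x₂ * y₁ - x₁ * y₂) / (y₁ * u₁ - y₂ * u₂) := ⟨_, rfl⟩
    have e3 : x₁ = α * y₁ + β * u₂ := by
      rw [hα, hβ, div_mul_eq_mul_div, div_mul_eq_mul_div, ← add_div, eq_div_iff hdet']
      ring
    have e4 : x₂ = α * y₂ + β * u₁ := by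
      rw [hα, hβ, div_mul_eq_mul_div, div_mul_eq_mul_div, ← add_div, eq_div_iff hdet']
      ring
    refine ⟨1, G.one_mem, ![α, β], ?_, ?_⟩
    · intro j
      fin_cases j
      · show 0 ≤ α
        rw [hα]
        exact div_nonneg (by linarith) hdet.le
      · show 0 ≤ β
        rw [hβ]
        exact div_nonneg (by linarith) hdet.le
    · rw [Fin.sum_univ_two]
      show x₁ • E₁ + x₂ • E₂ = α • intVec z + β • intVec w
      rw [hze, hwe, e3, e4]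
      module

theorem Plane.covered (hP : Plane B h K G) : Covered K G := by
  obtain ⟨E₁, E₂, h1, h2⟩ := exists_iso hP.hyp
  have key : ∀ E₁ E₂, Iso B h E₁ E₂ → Side K E₁ E₂ ∨ Covered K G := by
    intro E₁ E₂ hE
    by_cases hn : E₁ ∈ closure K
    · rcases hE.alt with hr | hg
      · exact Or.inl (hP.side_of_rat hE hn hr)
      · exact Or.inr (hP.covered_of_trans hE (hP.trans hE hn hg))
    · exact Or.inl (hP.side_of_edge hE hn)
  rcases key E₁ E₂ h1 with h3 | h3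
  · rcases key E₂ E₁ h2 with h4 | h4
    · exact covered_of_sides h1 hP.hyp h3 h4
    · exact h4
  · exact h3

end Pool.Agent.SCV
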