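import Pool.Agent.SYM.V3.Pub3
import Pool.Agent.H55.Cone.Defs

/-!
# SCV/Pub : the cone conjecture for primitive symplectic varieties, the definitions of the statement

`C : Fam n b` is a locally trivial deformation class of primitive symplectic varieties `X_i` of
dimension `2n` with `ℚ`-factorial terminal singularities, `b` their second Betti number. A projective
primitive symplectic variety `M` has a `ℚ`-factorial terminalization `π : X_i → M`.
-/

set_option autoImplicit false

open Module

namespace Pool.Agent.SCV

open Pool.Agent.H93Cone Pool.Agent.H55.Cone Pool.Agent.SYM.V3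
open Pool.Agent.SYP (Vec IsIntegral)

/-- The monodromy group, the automorphism groups and the prime divisors of the members of a
class. -/
structure ConeData {n b : ℕ} (C : Fam n b) where
  /-- the group of the monodromy operators (parallel transport in locally trivial families) -/
  Mon : Subgroup (Vec b ≃ₗ[ℝ] Vec b)
  /-- the action of the automorphism group of `X_i` on `H²(X_i, ℝ)` -/
  Aut : C.I → Subgroup (Vec b ≃ₗ[ℝ] Vec b)
  /-- the prime divisors of `X_i` -/
  Prime : C.I → Type
  /-- their classes in `H²(X_i, ℝ)` (a multiple of a prime divisor is a Cartier divisor) -/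
  cl : (i : C.I) → Prime i → Vec b

namespace ConeData

variable {n b : ℕ} {C : Fam n b} (P : ConeData C) {m : ℕ}

/-- The group `O(H²(X, ℤ), q)` of the isometries of the lattice. -/
def isoms (C : Fam n b) : Subgroup (Vec b ≃ₗ[ℝ] Vec b) where
  carrier := {g | (∀ x y, C.q (g x) (g y) = C.q x y) ∧ ∀ x, IsIntegral (g x) ↔ IsIntegral x}
  one_mem' := ⟨fun _ _ => rfl, fun _ => Iff.rfl⟩
  mul_mem' := fun {g h} hg hh =>
    ⟨fun x y => (hg.1 (h x) (h y)).trans (hh.1 x y), fun x => (hg.2 (h x)).trans (hh.2 x)⟩
  inv_mem' := by
    intro g hg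
    refine ⟨fun x y => ?_, fun x => ?_⟩
    · have h := hg.1 (g.symm x) (g.symm y)
      rw [g.apply_symm_apply, g.apply_symm_apply] at h
      exact h.symm
    · have h := hg.2 (g.symm x)
      rw [g.apply_symm_apply] at h
      exact h.symm

/-- `a` is the class of a line bundle on `X_i`: it is integral and of type `(1,1)`. -/
def IsLine (C : Fam n b) (i : C.I) (a : Vec b) : Prop :=
  IsIntegral a ∧ ∀ x y, C.per i x y → C.Type11 x y a

/-- `a` is the class of an effective divisor on `X_i`. -/
def Effective (i : C.I) (a : Vec b) : Prop :=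
  ∃ D : P.Prime i →₀ ℕ, D.sum (fun Q m => (m : ℝ) • P.cl i Q) = a

/-- The real Néron-Severi space of `X_i`, spanned by the classes of line bundles. -/
def realNS (C : Fam n b) (i : C.I) : Submodule ℝ (Vec b) :=
  Submodule.span ℝ {v | IsLine C i v}

/-- The effective cone of `X_i`, spanned by the classes of prime divisors. -/
def effCone (i : C.I) : PointedCone ℝ (Vec b) := PointedCone.hull ℝ (Set.range (P.cl i))

/-- Published facts for `b ≥ 5`. -/
structure Global : Prop where
  /-- the monodromy group has finite index in `O(H²(X, ℤ), q)` (Verbitsky; Bakker-Lehn) -/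
  mon_index : P.Mon.relIndex (isoms C) ≠ 0
  /-- Torelli theorem (Verbitsky, Markman; Bakker-Lehn): a monodromy operator which fixes the period
  of `X_i` and maps some Kähler class to a Kähler class is induced by an automorphism -/
  torelli : ∀ i, C.Projective i → ∀ γ ∈ P.Mon, (∀ x y, C.per i x y → γ x = x ∧ γ y = y) →
    (∃ A ∈ C.kahler i, γ A ∈ C.kahler i) → γ ∈ P.Aut i
  /-- the wall divisor classes are integral, their set is symmetric, monodromy invariant, and their
  squares are bounded (Amerik-Verbitsky; Lehn-Mongardi-Pacienza) -/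
  wall_int : ∀ s ∈ C.S, IsIntegral s
  wall_neg : ∀ s ∈ C.S, -s ∈ C.S
  wall_mon : ∀ γ ∈ P.Mon, ∀ s ∈ C.S, γ s ∈ C.S
  wall_bdd : ∃ K : ℝ, ∀ s ∈ C.S, -K ≤ C.q s s
  /-- no Kähler class is orthogonal to a wall divisor class of type `(1,1)` -/
  wall_kahler : ∀ i x y, C.Projective i → C.per i x y → ∀ A ∈ C.kahler i, ∀ s ∈ C.S,
    C.Type11 x y s → C.q s A ≠ 0
  /-- the ample cone is a chamber of the positive cone in the real Néron-Severi space for the wall
  divisor classes (Amerik-Verbitsky; Lehn-Mongardi-Pacienza) -/
  ample : ∀ i x y, C.per i x y → ∀ A ∈ C.kahler i, IsIntegral A → ∀ B ∈ realNS C i,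
    0 < C.q B B → 0 < C.q B A → (∀ s ∈ C.S, C.Type11 x y s → 0 < C.q s A → 0 < C.q s B) →
    B ∈ C.kahler i

/-- Further published facts, about projective members. -/
structure Axioms : Prop where
  /-- the period plane of `X_i` is well defined -/
  per_span : ∀ i x y x' y', C.per i x y → C.per i x' y' →
    ∃ s t u v : ℝ, x' = s • x + t • y ∧ y' = u • x + v • y
  /-- automorphisms act by isometries of the lattice, preserve the classes of type `(1,1)` and the
  Kähler classes -/
  aut_isom : ∀ i, C.Projective i → ∀ φ ∈ P.Aut i, φ ∈ isoms C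
  aut_type : ∀ i x y, C.Projective i → C.per i x y → ∀ φ ∈ P.Aut i, ∀ v, C.Type11 x y v →
    C.Type11 x y (φ v)
  aut_kahler : ∀ i, C.Projective i → ∀ φ ∈ P.Aut i, ∀ A ∈ C.kahler i, φ A ∈ C.kahler i
  /-- the Kähler cone is open in `H^{1,1}(X_i, ℝ)` -/
  kahler_open : ∀ i x y, C.Projective i → C.per i x y → ∀ κ ∈ C.kahler i, ∃ ε : ℝ, 0 < ε ∧
    ∀ B, C.Type11 x y B → dist B κ < ε → B ∈ C.kahler i
  /-- a nef and big class in the real Néron-Severi space which is not ample has degree zero on some
  curve (cone theorem; Kleiman). The class of the curve is, as a linear form on `H²(X_i, ℚ)`, the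
  product with a rational class of type `(1,1)`. -/
  curve : ∀ i, C.Projective i → ∀ v ∈ realNS C i, C.Nef i v → 0 < C.q v v → v ∉ C.kahler i →
    ∃ c, IsLine C i c ∧ C.q c v = 0 ∧ ∀ κ ∈ C.kahler i, 0 < C.q c κ
  /-- Finiteness of polarisations: let `L` be ample. The pairs `(X_i, g L)`, where `g` is an isometry
  of the lattice which fixes the period and `g L` is ample, are bounded, as `q(g L, g L) = q(L, L)`
  (Matsusaka, Kollár; Birkar), and have the same period in the quotient of the period domain of
  `L^⊥` by an arithmetic group. The fibres of the period map of a bounded family of polarised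
  varieties have finitely many connected components (Borel), on which the polarised variety is
  constant (local Torelli theorem), so these pairs form finitely many isomorphism classes. -/
  polarised : ∀ i x y L, C.Projective i → C.per i x y → L ∈ C.kahler i → IsIntegral L →
    ∃ F : Set (Vec b), F.Finite ∧ ∀ g ∈ isoms C, g x = x → g y = y → g L ∈ C.kahler i →
      ∃ L' ∈ F, ∃ φ ∈ P.Aut i, φ L' = g L
  /-- a line bundle whose class has positive square and is in the positive cone has an effective
  multiple (Huybrechts; Bakker-Lehn) -/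
  big : ∀ i, C.Projective i → ∀ A ∈ C.kahler i, ∀ v, IsLine C i v → 0 < C.q v v → 0 < C.q v A →
    ∃ k : ℕ, 1 ≤ k ∧ P.Effective i ((k : ℝ) • v)
  /-- the classes of prime divisors are rational, of type `(1,1)`, positive on Kähler classes -/
  prime_rat : ∀ i, C.Projective i → ∀ Q, ∃ N : ℕ, 1 ≤ N ∧ IsIntegral ((N : ℝ) • P.cl i Q)
  prime_type : ∀ i, C.Projective i → ∀ Q x y, C.per i x y → C.Type11 x y (P.cl i Q)
  prime_pos : ∀ i, C.Projective i → ∀ Q, ∀ A ∈ C.kahler i, 0 < C.q (P.cl i Q) A
  /-- a semiample line bundle has a multiple with a section -/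
  semiample_effective : ∀ i a, C.NefLine i a → C.Semiample i a →
    ∃ k : ℕ, 1 ≤ k ∧ P.Effective i ((k : ℝ) • a)
  /-- monodromy, Torelli theorem, walls -/
  global : 5 ≤ b → P.Global

/-- The vector of `H²(X, ℝ)` with coordinates `x` with respect to the vectors `f`. -/
noncomputable def lin (f : Fin m → Vec b) (x : Fin m → ℝ) : Vec b := ∑ k, x k • f k

/-- A birational contraction `π : X_i → M` onto a normal projective variety `M`: `a` is the pull
back of an ample class of `M`, a nef class with `q(a, a) > 0`, and `f` is a basis of the pull back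
of the lattice `NS(M)` of the line bundles on `M`. The pull back of the real Néron-Severi space of `M`
consists of the classes `v` of the real Néron-Severi space of `X_i` for which `t a + v` and `t a - v` are
nef for some `t`: they have degree zero on all contracted curves, so they are pull backs (contraction
theorem). If `M = X_i` then `a` is ample and `f` is a basis of `NS(X_i)`. -/
structure IsContraction (C : Fam n b) (i : C.I) (a : Vec b) (f : Fin m → Vec b) : Prop where
  line : IsLine C i a
  nef : C.Nef i a
  big : 0 < C.q a a
  basis : ∀ k, IsLine C i (f k)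
  indep : LinearIndependent ℝ f
  range : ∀ v, v ∈ Submodule.span ℝ (Set.range f) ↔
    v ∈ realNS C i ∧ ∃ t : ℝ, C.Nef i (t • a + v) ∧ C.Nef i (t • a - v)

/-- The nef and effective cone `Nef(M) ∩ Eff(M)`, in coordinates with respect to the basis `f` of
`NS(M)`. -/
def nefEff (i : C.I) (f : Fin m → Vec b) : Set (Fin m → ℝ) :=
  {x | C.Nef i (lin f x) ∧ lin f x ∈ P.effCone i}

/-- `G` is the action of the automorphism group of `M` on the lattice `NS(M)`: it preserves the nef
and the effective cone of `M`, and it contains the actions of the automorphisms of `X_i` which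
preserve the real space of `NS(M)`. (They descend to `M`: they permute the pull backs of the ample
classes of `M`, which are the interior points of the cone of the nef classes in this space.) -/
structure IsAutomorphismGroup (i : C.I) (f : Fin m → Vec b) (G : Subgroup (GL (Fin m) ℤ)) :
    Prop where
  nef : ∀ g ∈ G, ∀ x, C.Nef i (lin f x) → C.Nef i (lin f (act g.val x))
  eff : ∀ g ∈ G, ∀ x, lin f x ∈ P.effCone i → lin f (act g.val x) ∈ P.effCone i
  aut : ∀ φ ∈ P.Aut i, (∀ x, ∃ y, φ (lin f x) = lin f y) →
    ∃ g ∈ G, ∀ x, lin f (act g.val x) = φ (lin f x)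

end ConeData

end Pool.Agent.SCV
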