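import Pool.Agent.SCV.One
import Pool.Agent.SCV.Plane

/-!
# SCV/Small : members with Picard number two, the plane `NS(X)_ℝ`
-/

set_option autoImplicit false

open Module Filter Topology

namespace Pool.Agent.SCV

open Pool.Agent.SYM.V3.Lat Pool.Agent.H93Cone Pool.Agent.SymCone

namespace Cls

variable {b : ℕ} {C : Cls b} {i : C.I}

theorem comb_continuous {m : ℕ} (f : Fin m → Vec b) : Continuous (comb f) :=
  (combL f).continuous_of_finiteDimensional

/-- The action of the automorphisms on the plane. -/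
def autP (C : Cls b) (i : C.I) {ρ : ℕ} (e : Fin ρ → Vec b) :
    Subgroup ((Fin ρ → ℝ) ≃ₗ[ℝ] (Fin ρ → ℝ)) where
  carrier := {T | ∃ φ ∈ C.Aut i, ∀ x, comb e (T x) = φ (comb e x)}
  one_mem' := ⟨1, (C.Aut i).one_mem, fun _ => rfl⟩
  mul_mem' := by
    rintro T T' ⟨φ, hφ, h1⟩ ⟨φ', hφ', h2⟩
    refine ⟨φ * φ', (C.Aut i).mul_mem hφ hφ', fun x => ?_⟩
    show comb e (T (T' x)) = φ (φ' (comb e x))
    rw [h1, h2]
  inv_mem' := by
    rintro T ⟨φ, hφ, h1⟩
    refine ⟨φ⁻¹, (C.Aut i).inv_mem hφ, fun x => ?_⟩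
    show comb e (T.symm x) = φ.symm (comb e x)
    rw [LinearEquiv.eq_symm_apply, ← h1, LinearEquiv.apply_symm_apply]

theorem aut_realNS (hC : C.Small) (hi : C.Projective i) {φ : Vec b ≃ₗ[ℝ] Vec b}
    (hφ : φ ∈ C.Aut i) {v : Vec b} (hv : v ∈ C.realNS i) : φ v ∈ C.realNS i := by
  induction hv using Submodule.span_induction with
  | mem v hv => exact Submodule.subset_span (hC.aut_line i hi φ hφ v hv)
  | zero => rw [map_zero]; exact Submodule.zero_mem _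
  | add v w _ _ hv hw => rw [map_add]; exact Submodule.add_mem _ hv hw
  | smul c v _ hv => rw [map_smul]; exact Submodule.smul_mem _ _ hv

theorem exists_autP (hC : C.Small) (hi : C.Projective i) {ρ : ℕ} {e : Fin ρ → Vec b}
    (he : C.IsBasisNS i e) {B : Matrix (Fin ρ) (Fin ρ) ℤ}
    (hB : ∀ k l, (B k l : ℝ) = C.q (e k) (e l)) {h : Fin ρ → ℝ} (hyp : Hyperbolic B h)
    {φ : Vec b ≃ₗ[ℝ] Vec b} (hφ : φ ∈ C.Aut i) :
    ∃ T ∈ C.autP i e, ∀ x, comb e (T x) = φ (comb e x) := by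
  have hproj : ∀ v ∈ C.realNS i, comb e (projL C e B v) = v := by
    intro v hv
    obtain ⟨y, rfl⟩ := (he.mem_realNS v).1 hv
    rw [projL_comb hC.toBase hB hyp]
  have hmem : ∀ x, comb e x ∈ C.realNS i := fun x => (he.mem_realNS _).2 ⟨x, rfl⟩
  have h1 : ∀ (ψ : Vec b ≃ₗ[ℝ] Vec b), ψ ∈ C.Aut i → ∀ x,
      comb e (projL C e B (ψ (comb e x))) = ψ (comb e x) := fun ψ hψ x =>
    hproj _ (aut_realNS hC hi hψ (hmem x))
  let L : (Vec b ≃ₗ[ℝ] Vec b) → ((Fin ρ → ℝ) →ₗ[ℝ] (Fin ρ → ℝ)) := fun ψ =>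
    projL C e B ∘ₗ ψ.toLinearMap ∘ₗ combL e
  have hL : ∀ ψ ∈ C.Aut i, ∀ x, comb e (L ψ x) = ψ (comb e x) := fun ψ hψ x => h1 ψ hψ x
  have hinv := (C.Aut i).inv_mem hφ
  have hcomp1 : L φ ∘ₗ L φ⁻¹ = LinearMap.id := by
    apply LinearMap.ext
    intro x
    apply comb_injective he.indep
    show comb e (L φ (L φ⁻¹ x)) = comb e x
    rw [hL φ hφ, hL _ hinv]
    exact φ.apply_symm_apply _
  have hcomp2 : L φ⁻¹ ∘ₗ L φ = LinearMap.id := by
    apply LinearMap.ext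
    intro x
    apply comb_injective he.indep
    show comb e (L φ⁻¹ (L φ x)) = comb e x
    rw [hL _ hinv, hL φ hφ]
    exact φ.symm_apply_apply _
  exact ⟨LinearEquiv.ofLinearMap (L φ) (L φ⁻¹) hcomp1 hcomp2, ⟨φ, hφ, hL φ hφ⟩, hL φ hφ⟩

theorem nef_of_closure {m : ℕ} {f : Fin m → Vec b} {x : Fin m → ℝ}
    (hx : x ∈ closure {y | comb f y ∈ C.kahler i}) : C.Nef i (comb f x) := by
  have h1 := image_closure_subset_closure_image (comb_continuous f) ⟨x, hx, rfl⟩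
  refine closure_mono ?_ h1
  rintro _ ⟨y, hy, rfl⟩
  exact hy

theorem kahler_open (hC : C.Small) (hi : C.Projective i) {m : ℕ} {f : Fin m → Vec b}
    (hf : ∀ x, comb f x ∈ C.realNS i) : IsOpen {x | comb f x ∈ C.kahler i} := by
  obtain ⟨x₀, y₀, hp⟩ := hC.per_exists i
  obtain ⟨ρ, e, he⟩ := exists_basis hC.toBase i
  rw [isOpen_iff_mem_nhds]
  intro x hx
  obtain ⟨ε, hε, hball⟩ := hC.opn i x₀ y₀ hi hp (comb f x) hx
  have h1 : comb f ⁻¹' Metric.ball (comb f x) ε ∈ 𝓝 x :=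
    (comb_continuous f).continuousAt.preimage_mem_nhds (Metric.ball_mem_nhds _ hε)
  filter_upwards [h1] with y hy
  obtain ⟨z, hz⟩ := (he.mem_realNS _).1 (hf y)
  obtain ⟨h2, h3⟩ := orth_period hC.toBase he hp z
  rw [← hz] at h2 h3
  exact hball _ h2 h3 hy

theorem plane (hC : C.Small) (hi : C.Projective i) {e : Fin 2 → Vec b} (he : C.IsBasisNS i e)
    {B : Matrix (Fin 2) (Fin 2) ℤ} (hB : ∀ k l, (B k l : ℝ) = C.q (e k) (e l)) {h : Fin 2 → ℤ}
    (hA : comb e (intVec h) ∈ C.kahler i) :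
    Plane B h {x | comb e x ∈ C.kahler i} (C.autP i e) := by
  have hyp := hyperbolic hC.toBase he hB hA
  have hmem : ∀ x, comb e x ∈ C.realNS i := fun x => (he.mem_realNS _).2 ⟨x, rfl⟩
  refine ⟨hyp, hA, ?_, ?_, ?_, kahler_open hC hi hmem, ?_, ?_, ?_, ?_, ?_⟩
  · intro x hx y hy
    rw [form_comb hB]
    exact hC.kahler_pos i _ hx _ hy
  · intro x hx y hy
    show comb e (x + y) ∈ C.kahler i
    rw [comb_add]
    exact hC.kahler_add i _ hx _ (nef_of_closure hy)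
  · intro x hx c hc
    show comb e (c • x) ∈ C.kahler i
    rw [comb_smul]
    exact hC.kahler_smul i _ hx c hc
  · intro x hx hxx hxK
    rw [form_comb hB] at hxx
    obtain ⟨c, hc, hcx, hcK⟩ := hC.curve i hi _ (hmem x) (nef_of_closure hx) hxx hxK
    obtain ⟨z, rfl⟩ := (he.line_iff c).1 hc
    refine ⟨z, by rw [form_comb hB, hcx], fun y hy => ?_⟩
    rw [form_comb hB]
    exact hcK _ hy
  · rintro T ⟨φ, hφ, hT⟩ x y
    rw [form_comb hB, form_comb hB, hT, hT]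
    exact (hC.aut_isom i hi φ hφ).1 _ _
  · rintro T ⟨φ, hφ, hT⟩ x hx
    show comb e (T x) ∈ C.kahler i
    rw [hT]
    exact hC.aut_kahler i hi φ hφ _ hx
  · rintro T ⟨φ, hφ, hT⟩ z
    have h1 := hC.aut_line i hi φ hφ _ ((he.line_iff _).2 ⟨z, rfl⟩)
    rw [← hT] at h1
    obtain ⟨z', hz'⟩ := (he.line_iff _).1 h1
    exact ⟨z', comb_injective he.indep hz'⟩
  · obtain ⟨Φ, hΦ1, hΦ2, d, hd, hΦ3⟩ := exists_hom hC.toBase he hB hyp
    obtain ⟨x₀, y₀, hp⟩ := hC.per_exists i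
    obtain ⟨F, hF, hpol⟩ := hC.polarised i x₀ y₀ _ hi hp hA ((he.line_iff _).2 ⟨h, rfl⟩).1
    refine ⟨d, hd, projL C e B '' F, hF.image _, fun g hg hgd hgK => ?_⟩
    have hgK' : comb e (act g.val (intVec h)) ∈ C.kahler i := hgK
    have hfix : ∀ v : Vec b, (∀ z, C.q (comb e z) v = 0) → Φ g v = v := by
      intro v hv
      refine hΦ1 g v fun k => ?_
      rw [hC.symm, ← comb_single e k]
      exact hv _
    obtain ⟨L', hL', φ, hφ, hφL⟩ := hpol (Φ g) (hΦ3 g hg (dvd_of_mem_cong hgd))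
      (hfix x₀ fun z => (orth_period hC.toBase he hp z).1)
      (hfix y₀ fun z => (orth_period hC.toBase he hp z).2)
      (by rw [hΦ2]; exact hgK')
    rw [hΦ2] at hφL
    have hLl : C.IsLine i L' := by
      have h1 : φ⁻¹ (comb e (act g.val (intVec h))) = L' := by
        show φ.symm _ = _
        rw [LinearEquiv.symm_apply_eq, hφL]
      rw [← h1]
      refine hC.aut_line i hi _ ((C.Aut i).inv_mem hφ) _ ?_
      rw [SymCone.act_intVec]
      exact (he.line_iff _).2 ⟨_, rfl⟩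
    obtain ⟨z, rfl⟩ := (he.line_iff L').1 hLl
    obtain ⟨T, hT, hTe⟩ := exists_autP hC hi he hB hyp hφ
    refine ⟨_, ⟨_, hL', rfl⟩, T, hT, ?_⟩
    apply comb_injective he.indep
    rw [projL_comb hC.toBase hB hyp, hTe, hφL]

end Cls

end Pool.Agent.SCV
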