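import Pool.Agent.SCV.Small

/-!
# SCV/Two : members with Picard number two
-/

set_option autoImplicit false

open Module Filter Topology

namespace Pool.Agent.SCV

open Pool.Agent.SYM.V3.Lat Pool.Agent.H93Cone Pool.Agent.SymCone Pool.Agent.H92Cone Pool.Agent.H55.Cone

namespace Cls

variable {b : ℕ} {C : Cls b} {i : C.I} {m : ℕ}

theorem nef_add (hC : C.Base) {u v : Vec b} (hu : C.Nef i u) (hv : C.Nef i v) :
    C.Nef i (u + v) := by
  have h1 : closure (C.kahler i) ⊆ (fun w : Vec b => w + v) ⁻¹' closure (C.kahler i) := by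
    refine closure_minimal (fun w hw => ?_) (isClosed_closure.preimage (by fun_prop))
    exact subset_closure (hC.kahler_add i w hw v hv)
  exact h1 hu

/-- the nef cone in coordinates -/
def nefCoord (hC : C.Base) (hi : C.Projective i) (f : Fin m → Vec b) :
    PointedCone ℝ (Fin m → ℝ) where
  carrier := {x | C.Nef i (comb f x)}
  add_mem' := by
    intro x y hx hy
    show C.Nef i (comb f (x + y))
    rw [comb_add]
    exact nef_add hC hx hy
  zero_mem' := by
    show C.Nef i (comb f 0)
    rw [comb_zero]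
    exact nef_zero hC hi
  smul_mem' := by
    intro c x hx
    show C.Nef i (comb f ((c : ℝ) • x))
    rw [comb_smul]
    rcases c.2.eq_or_lt with h1 | h1
    · rw [← h1, zero_smul]
      exact nef_zero hC hi
    · exact nef_smul hC hx h1

/-- `f` spans the Néron-Severi space over `ℚ` -/
def RatBasis (C : Cls b) (i : C.I) (f : Fin m → Vec b) : Prop :=
  ∀ v, C.IsLine i v → ∃ N : ℕ, 1 ≤ N ∧ ∃ z : Fin m → ℤ, (N : ℝ) • v = comb f (intVec z)

private theorem two_smul_mem {V : Type*} [AddCommGroup V] [Module ℝ V] {P : PointedCone ℝ V}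
    {t : ℝ} (ht : 0 ≤ t) {x : V} (hx : x ∈ P) : t • x ∈ P :=
  PointedCone.smul_mem P ht hx

private theorem exists_int (hC : C.Base) {f : Fin m → Vec b} (hf : C.RatBasis i f)
    (hi : C.Projective i) (Q : C.Prime i) :
    ∃ N : ℝ, 0 < N ∧ ∃ z : Fin m → ℤ, N • C.cl i Q = comb f (intVec z) := by
  obtain ⟨N, hN, hNl⟩ := hC.prime_rat i hi Q
  obtain ⟨x, y, hper⟩ := hC.per_exists i
  have h1 := (hC.cls_range i x y hper (C.cl i Q)).1 (hC.prime_type i hi Q)
  have h2 : C.IsLine i (N • C.cl i Q) := by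
    refine ⟨hNl, (hC.cls_range i x y hper _).2 ⟨?_, ?_⟩⟩
    · rw [map_smul, LinearMap.smul_apply, h1.1, smul_zero]
    · rw [map_smul, LinearMap.smul_apply, h1.2, smul_zero]
  obtain ⟨M, hM, z, hz⟩ := hf _ h2
  refine ⟨M * N, mul_pos (by exact_mod_cast hM) hN, z, ?_⟩
  rw [← hz, smul_smul]

private theorem mem_eff (hC : C.Base) {f : Fin m → Vec b} (hf : C.RatBasis i f)
    (hind : LinearIndependent ℝ f) (hi : C.Projective i) (x : Fin m → ℝ) :
    x ∈ C.effCoord i f ↔ comb f x ∈ C.effCone i := by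
  have hinj := comb_injective hind
  constructor
  · intro hx
    induction hx using Submodule.span_induction with
    | mem y hy => exact Submodule.subset_span hy
    | zero => rw [comb_zero]; exact (C.effCone i).zero_mem
    | add y z _ _ hy hz => rw [comb_add]; exact (C.effCone i).add_mem hy hz
    | smul c y _ hy =>
      have h1 : comb f (c • y) = (c : ℝ) • comb f y := comb_smul f (c : ℝ) y
      rw [h1]
      exact two_smul_mem c.2 hy
  · intro hx
    have key : ∀ v ∈ C.effCone i, ∃ z ∈ C.effCoord i f, comb f z = v := by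
      intro v hv
      induction hv using Submodule.span_induction with
      | mem v hv =>
        obtain ⟨Q, rfl⟩ := hv
        obtain ⟨N, hN, z, hz⟩ := exists_int hC hf hi Q
        have hN0 : N ≠ 0 := hN.ne'
        have h2 : comb f (N⁻¹ • intVec z) = C.cl i Q := by
          rw [comb_smul, ← hz, smul_smul, inv_mul_cancel₀ hN0, one_smul]
        exact ⟨N⁻¹ • intVec z, Submodule.subset_span ⟨Q, h2.symm⟩, h2⟩
      | zero => exact ⟨0, (C.effCoord i f).zero_mem, comb_zero f⟩
      | add v w _ _ hv hw =>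
        obtain ⟨a, ha, rfl⟩ := hv
        obtain ⟨b, hb, rfl⟩ := hw
        exact ⟨a + b, (C.effCoord i f).add_mem ha hb, comb_add f a b⟩
      | smul c v _ hv =>
        obtain ⟨a, ha, rfl⟩ := hv
        exact ⟨(c : ℝ) • a, two_smul_mem c.2 ha, comb_smul f (c : ℝ) a⟩
    obtain ⟨z, hz, hzx⟩ := key _ hx
    rw [← hinj hzx]
    exact hz

private theorem eff_int (hC : C.Base) {f : Fin m → Vec b} (hf : C.RatBasis i f)
    (hind : LinearIndependent ℝ f) (hi : C.Projective i) :
    ∃ D : Set (Fin m → ℤ), C.effCoord i f = PointedCone.hull ℝ (intVec '' D) := by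
  have hinj := comb_injective hind
  choose N hN z hz using exists_int (C := C) (i := i) (f := f) hC hf hi
  have hN0 : ∀ Q, N Q ≠ 0 := fun Q => (hN Q).ne'
  have hcl : ∀ Q, comb f ((N Q)⁻¹ • intVec (z Q)) = C.cl i Q := fun Q => by
    rw [comb_smul, ← hz, smul_smul, inv_mul_cancel₀ (hN0 Q), one_smul]
  refine ⟨Set.range z, ?_⟩
  apply le_antisymm
  · refine Submodule.span_le.2 ?_
    rintro x ⟨Q, hQ⟩
    have hx : x = (N Q)⁻¹ • intVec (z Q) := hinj (by rw [hcl, hQ])
    show x ∈ PointedCone.hull ℝ _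
    rw [hx]
    exact two_smul_mem (inv_nonneg.2 (hN Q).le)
      (Submodule.subset_span ⟨_, ⟨Q, rfl⟩, rfl⟩)
  · refine Submodule.span_le.2 ?_
    rintro _ ⟨_, ⟨Q, rfl⟩, rfl⟩
    show intVec (z Q) ∈ C.effCoord i f
    rw [mem_eff hC hf hind hi, ← hz]
    exact two_smul_mem (hN Q).le (Submodule.subset_span ⟨Q, rfl⟩)

/-- Kähler classes are effective -/
theorem kahler_eff (hC : C.Small) (hi : C.Projective i) {ρ : ℕ} {e : Fin ρ → Vec b}
    (he : C.IsBasisNS i e) {v : Vec b} (hv : v ∈ C.realNS i) (hvK : v ∈ C.kahler i) :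
    v ∈ C.effCone i := by
  have hmem : ∀ x, comb e x ∈ C.realNS i := fun x => (he.mem_realNS _).2 ⟨x, rfl⟩
  obtain ⟨x, rfl⟩ := (he.mem_realNS v).1 hv
  obtain ⟨S, hS1, hS2⟩ := Pool.Agent.H55.Cone.exists_ratCone_nhds
    (kahler_open hC hi hmem) (show x ∈ {y | comb e y ∈ C.kahler i} from hvK)
  have hxS := mem_of_mem_nhds hS2
  have hle : ratCone S ⊆ C.effCoord i e := by
    refine Submodule.span_le.2 ?_
    rintro _ ⟨w, hw, rfl⟩
    have h1 : comb e (ratVec w) ∈ C.kahler i := hS1 w hw
    obtain ⟨M, hM, z, hz⟩ : ∃ M : ℕ, 1 ≤ M ∧ ∃ z : Fin ρ → ℤ,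
        intVec z = (M : ℝ) • ratVec w := by
      refine ⟨∏ k, (w k).den, Nat.one_le_iff_ne_zero.2
        (Finset.prod_ne_zero_iff.2 fun k _ => (w k).den_nz), ?_⟩
      have h : ∀ k, ∃ t : ℤ, (t : ℝ) = ((∏ k, (w k).den : ℕ) : ℝ) * ((w k : ℚ) : ℝ) := by
        intro k
        obtain ⟨e, he⟩ : (w k).den ∣ ∏ k, (w k).den :=
          Finset.dvd_prod_of_mem (fun k => (w k).den) (Finset.mem_univ k)
        refine ⟨e * (w k).num, ?_⟩
        rw [he]
        have h1 := Rat.mul_den_eq_num (w k)
        have h2 : (((w k).num : ℤ) : ℚ) * e = (w k) * (w k).den * e := by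
          rw [h1]
        have h3 : ((e * (w k).num : ℤ) : ℚ) =
            (((w k).den * e : ℕ) : ℚ) * (w k : ℚ) := by
          push_cast
          linarith
        exact_mod_cast h3
      choose t ht using h
      refine ⟨t, ?_⟩
      funext k
      exact ht k
    show ratVec w ∈ C.effCoord i e
    rw [mem_effCoord_iff hC.toBase he hi]
    have hm0 : (0 : ℝ) < M := by exact_mod_cast hM
    have hwr : comb e (intVec z) = (M : ℝ) • comb e (ratVec w) := by rw [hz, comb_smul]
    have hKz : comb e (intVec z) ∈ C.kahler i := by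
      rw [hwr]
      exact hC.kahler_smul i _ h1 _ hm0
    have h4 := hC.big i hi _ hKz (comb e (intVec z)) ((he.line_iff _).2 ⟨z, rfl⟩)
      (hC.kahler_pos i _ hKz _ hKz) (hC.kahler_pos i _ hKz _ hKz)
    rw [hwr] at h4
    have h5 : comb e (ratVec w) = (M : ℝ)⁻¹ • ((M : ℝ) • comb e (ratVec w)) := by
      rw [smul_smul, inv_mul_cancel₀ hm0.ne', one_smul]
    rw [h5]
    exact two_smul_mem (inv_nonneg.2 hm0.le) h4
  exact (mem_effCoord_iff hC.toBase he hi x).1 (hle hxS)

theorem pair_nonneg (hC : C.Base) (hi : C.Projective i) {u v : Vec b} (hu : C.Nef i u)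
    (hv : v ∈ C.effCone i) : 0 ≤ C.q u v := by
  induction hv using Submodule.span_induction with
  | mem v hv =>
    obtain ⟨Q, rfl⟩ := hv
    rw [hC.symm]
    exact nef_nonneg (fun A hA => (hC.prime_pos i hi Q A hA).le) hu
  | zero => rw [map_zero]
  | add v w _ _ hv hw => rw [map_add]; exact add_nonneg hv hw
  | smul c v _ hv =>
    have h1 : C.q u (c • v) = (c : ℝ) * C.q u v := by
      have : C.q u ((c : ℝ) • v) = (c : ℝ) * C.q u v := by rw [map_smul, smul_eq_mul]
      exact this
    rw [h1]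
    exact mul_nonneg c.2 hv

/-- the cone conjecture if translates of a rational polyhedral cone cover the Kähler cone -/
theorem domain_of_cover (hC : C.Small) (hi : C.Projective i) {ρ : ℕ} {e : Fin ρ → Vec b}
    (he : C.IsBasisNS i e) {f : Fin m → Vec b} (hind : LinearIndependent ℝ f)
    (hfl : ∀ k, C.IsLine i (f k)) (hfr : C.RatBasis i f)
    (hspan : ∀ v ∈ C.realNS i, ∃ x, comb f x = v)
    {G : Subgroup (GL (Fin m) ℤ)} (hG : C.IsAutomorphismGroup i f G)
    (hnv : ∀ α ∈ lattice b, α ≠ 0 → C.q α α = 0 → C.Nef i α →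
      α ∈ C.effCone i)
    {n : ℕ} (t : Fin n → Vec b) (ht : ∀ j, C.IsLine i (t j)) (htn : ∀ j, C.Nef i (t j))
    (hcov : ∀ v ∈ C.realNS i, v ∈ C.kahler i →
      ∃ φ ∈ C.Aut i, ∃ c : Fin n → ℝ, (∀ j, 0 ≤ c j) ∧ v = φ (∑ j, c j • t j)) :
    HasDomain G (C.nefEff i f) := by
  classical
  have hB := hC.toBase
  have hi' := hi
  have hinj := comb_injective hind
  obtain ⟨x₀, y₀, hp⟩ := hB.per_exists i
  obtain ⟨A, hAl, hA⟩ := hi'
  have hAline : C.IsLine i A := by
    obtain ⟨h1, h2⟩ := hB.kahler_type i x₀ y₀ hp A hA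
    exact ⟨hAl, (hB.cls_range i x₀ y₀ hp A).2 ⟨h1, h2⟩⟩
  have hmem : ∀ x, comb f x ∈ C.realNS i := by
    intro x
    exact Submodule.sum_mem _ fun k _ => Submodule.smul_mem _ _ (Submodule.subset_span (hfl k))
  obtain ⟨xA, hxA⟩ := hspan A (Submodule.subset_span hAline)
  have hopen := kahler_open hC hi hmem
  have hzero : ∀ v ∈ C.realNS i, C.q v x₀ = 0 ∧ C.q v y₀ = 0 := by
    intro v hv
    obtain ⟨z, rfl⟩ := (he.mem_realNS v).1 hv
    exact orth_period hB he hp z
  -- the nef cone
  obtain ⟨N, hN⟩ : ∃ N, N = nefCoord hB hi f := ⟨_, rfl⟩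
  have memN : ∀ x, x ∈ N ↔ C.Nef i (comb f x) := fun x => by
    rw [hN]
    exact Iff.rfl
  have hKN : {x | comb f x ∈ C.kahler i} ⊆ (N : Set (Fin m → ℝ)) := fun x hx =>
    (memN x).2 (subset_closure hx)
  have hKint : {x | comb f x ∈ C.kahler i} ⊆ interior (N : Set (Fin m → ℝ)) :=
    interior_maximal hKN hopen
  have hint : ∀ x ∈ interior (N : Set (Fin m → ℝ)), comb f x ∈ C.kahler i := by
    intro x hx
    have h1 : Tendsto (fun s : ℝ => x - s • xA) (𝓝 0) (𝓝 x) := by
      have h2 : Continuous fun s : ℝ => x - s • xA := by fun_prop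
      have h3 := h2.tendsto 0
      rwa [zero_smul, sub_zero] at h3
    obtain ⟨ε, hε, hball⟩ := Metric.eventually_nhds_iff.1
      (h1.eventually (mem_interior_iff_mem_nhds.1 hx))
    have h4 : x - (ε / 2) • xA ∈ N := hball (by
      rw [Real.dist_eq, sub_zero, abs_of_pos (by positivity)]
      linarith)
    rw [memN] at h4
    have h5 : comb f x = (ε / 2) • A + comb f (x - (ε / 2) • xA) := by
      rw [← hxA, ← comb_smul, ← comb_add]
      congr 1
      abel
    rw [h5]
    exact hB.kahler_add i _ (hB.kahler_smul i A hA _ (by positivity)) _ h4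
  obtain ⟨D, hD⟩ := eff_int hB hfr hind hi
  have memE := mem_eff hB hfr hind hi
  have hfin := Pool.Agent.H55.Cone.final N (C.effCoord i f) D
    ⟨xA, hKint (by rw [Set.mem_ofPred_eq, hxA]; exact hA)⟩ hD
    (fun x hx => (memE x).2 (kahler_eff hC hi he (hmem x) (hint x hx)))
    (by
      intro x hx hx'
      have hcl : ∀ u, C.Nef i u → ∀ y ∈ closure (C.effCoord i f : Set (Fin m → ℝ)),
          0 ≤ C.q u (comb f y) := by
        intro u hu y hy
        have h1 : closure (C.effCoord i f : Set (Fin m → ℝ)) ⊆ {y | 0 ≤ C.q u (comb f y)} := by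
          refine closure_minimal ?_ (isClosed_le continuous_const
            ((LinearMap.continuous_of_finiteDimensional (C.q u)).comp (comb_continuous f)))
          intro y hy
          exact pair_nonneg hB hi hu ((memE y).1 hy)
        exact h1 hy
      have h0 : ∀ u, C.Nef i u → C.q u (comb f x) = 0 := by
        intro u hu
        have h1 := hcl u hu x hx
        have h2 := hcl u hu (-x) hx'
        have h3 : comb f (-x) = -comb f x := by
          rw [← neg_one_smul ℝ, comb_smul, neg_one_smul]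
        rw [h3, map_neg] at h2
        linarith
      have hxx : C.q (comb f x) (comb f x) = 0 := by
        have h1 : Tendsto (fun s : ℝ => xA + s • x) (𝓝 0) (𝓝 xA) := by
          have h2 : Continuous fun s : ℝ => xA + s • x := by fun_prop
          have h3 := h2.tendsto 0
          rwa [zero_smul, add_zero] at h3
        have hxAK : {x | comb f x ∈ C.kahler i} ∈ 𝓝 xA :=
          hopen.mem_nhds (by rw [Set.mem_ofPred_eq, hxA]; exact hA)
        obtain ⟨ε, hε, hball⟩ := Metric.eventually_nhds_iff.1 (h1.eventually hxAK)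
        have h4 : comb f (xA + (ε / 2) • x) ∈ C.kahler i := hball (by
          rw [Real.dist_eq, sub_zero, abs_of_pos (by positivity)]
          linarith)
        have h5 := h0 _ (subset_closure h4)
        rw [comb_add, comb_smul, map_add, LinearMap.add_apply, hxA,
          h0 A (subset_closure hA), zero_add, map_smul, LinearMap.smul_apply, smul_eq_mul] at h5
        rcases mul_eq_zero.1 h5 with h6 | h6
        · linarith
        · exact h6
      by_contra hne
      obtain ⟨h1, h2⟩ := hzero _ (hmem x)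
      have h3 := neg_of_orth hB hp hA h1 h2 (by rw [hB.symm]; exact h0 A (subset_closure hA))
        (fun h4 => hne (hinj (by rw [h4, comb_zero])))
      linarith)
    G
    (fun g hg x hx => by
      rw [memN] at hx ⊢
      exact hG.nef g hg x hx)
    (fun g hg x hx => by
      rw [memE] at hx ⊢
      exact hG.eff g hg x hx)
  have hset : (N : Set (Fin m → ℝ)) ∩ C.effCoord i f = C.nefEff i f := by
    ext x
    exact and_congr (memN x) (memE x)
  rw [hset] at hfin
  refine hfin.2.1.2 ?_
  -- the generators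
  choose M hM z hz using fun j => hfr (t j) (ht j)
  have hM0 : ∀ j, (0 : ℝ) < M j := fun j => by exact_mod_cast hM j
  have hte : ∀ j, t j ∈ C.effCone i := by
    intro j
    by_cases h0 : t j = 0
    · rw [h0]
      exact (C.effCone i).zero_mem
    have hq : 0 ≤ C.q (t j) (t j) := by
      have h1 : ∀ κ ∈ C.kahler i, 0 ≤ C.q (t j) κ := fun κ hκ => by
        rw [hB.symm]
        exact nef_nonneg (fun A' hA' => (hB.kahler_pos i κ hκ A' hA').le) (htn j)
      exact nef_nonneg h1 (htn j)
    rcases hq.eq_or_lt with h1 | h1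
    · exact hnv (t j) (ht j).1 h0 h1.symm (htn j)
    · exact hB.big i hi A hA (t j) (ht j) h1 (nef_big_pos hB (htn j) h1 hA)
  have hzmem : ∀ j, intVec (z j) ∈ C.nefEff i f := by
    intro j
    constructor
    · rw [← hz]
      exact nef_smul hB (htn j) (hM0 j)
    · rw [← hz]
      exact two_smul_mem (hM0 j).le (hte j)
  have hrz : ∀ j, ratVec (fun k => ((z j k : ℤ) : ℚ)) = intVec (z j) := by
    intro j
    funext k
    simp [ratVec, intVec]
  refine ⟨Finset.univ.image fun j k => ((z j k : ℤ) : ℚ), ?_, ?_⟩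
  · rw [← hset]
    have h1 : PointedCone.hull ℝ (ratVec '' ((Finset.univ.image fun j k => ((z j k : ℤ) : ℚ)) :
        Set (Fin m → ℚ))) ≤ N ⊓ C.effCoord i f := by
      refine Submodule.span_le.2 ?_
      rintro _ ⟨w, hw, rfl⟩
      obtain ⟨j, -, rfl⟩ := Finset.mem_image.1 (Finset.mem_coe.1 hw)
      rw [hrz]
      exact ⟨(memN _).2 (hzmem j).1, (memE _).2 (hzmem j).2⟩
    exact fun x hx => h1 hx
  · intro x hx
    obtain ⟨φ, hφ, c, hc, hxc⟩ := hcov _ (hmem x) (hint x hx)
    obtain ⟨g, hg, hgφ⟩ := hG.aut φ hφ (fun x => by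
      obtain ⟨y, hy⟩ := hspan _ (aut_realNS hC hi hφ (hmem x))
      exact ⟨y, hy.symm⟩)
    have h1 : comb f (∑ j, (c j / M j) • intVec (z j)) = ∑ j, c j • t j := by
      have h2 : comb f (∑ j, (c j / M j) • intVec (z j)) =
          ∑ j, (c j / M j) • comb f (intVec (z j)) := by
        have := map_sum (combL f) (fun j => (c j / M j) • (intVec (z j) : Fin m → ℝ)) Finset.univ
        rw [show comb f (∑ j, (c j / M j) • intVec (z j)) =
          combL f (∑ j, (c j / M j) • intVec (z j)) from rfl, this]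
        exact Finset.sum_congr rfl fun j _ => comb_smul f _ _
      rw [h2]
      refine Finset.sum_congr rfl fun j _ => ?_
      rw [← hz, smul_smul, div_mul_cancel₀ _ (hM0 j).ne']
    refine Set.mem_biUnion hg ⟨∑ j, (c j / M j) • intVec (z j), ?_, ?_⟩
    · refine Submodule.sum_mem _ fun j _ => ?_
      refine two_smul_mem (div_nonneg (hc j) (hM0 j).le) (Submodule.subset_span ?_)
      refine ⟨fun k => ((z j k : ℤ) : ℚ), ?_, hrz j⟩
      exact Finset.mem_coe.2 (Finset.mem_image.2 ⟨j, Finset.mem_univ _, rfl⟩)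
    · apply hinj
      rw [hgφ, h1, hxc]

end Cls

end Pool.Agent.SCV
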